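import Mathlib

set_option autoImplicit false

namespace Pool.Agent.H89

open Filter Topology Complex Metric

/-- Zeros of entire functions depending continuously on a parameter persist. -/
theorem hurwitz {Λ : Type*} [TopologicalSpace Λ] {Φ : Λ → ℂ → ℂ}
    (hc : Continuous (fun x : Λ × ℂ => Φ x.1 x.2)) (hd : ∀ l, Differentiable ℂ (Φ l))
    {l₀ : Λ} {y₀ : ℂ} (h0 : Φ l₀ y₀ = 0) (hne : ∃ y, Φ l₀ y ≠ 0) {ε : ℝ} (hε : 0 < ε) :
    ∀ᶠ l in 𝓝 l₀, ∃ y, ‖y - y₀‖ < ε ∧ Φ l y = 0 := by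
  obtain ⟨y₁, hy₁⟩ := hne
  -- isolated zero
  have hiso : ∀ᶠ w in 𝓝[≠] y₀, Φ l₀ w ≠ 0 := by
    rcases ((hd l₀).analyticAt y₀).eventually_eq_zero_or_eventually_ne_zero with h1 | h1
    · exfalso
      have hBan : AnalyticOnNhd ℂ (Φ l₀) Set.univ := fun z _ => (hd l₀).analyticAt z
      have := hBan.eqOn_zero_of_preconnected_of_eventuallyEq_zero isPreconnected_univ
        (Set.mem_univ y₀) h1
      exact hy₁ (this (Set.mem_univ y₁))
    · exact h1
  rw [eventually_nhdsWithin_iff, Metric.eventually_nhds_iff] at hiso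
  obtain ⟨δ₀, hδ₀, hiso⟩ := hiso
  set δ : ℝ := min (δ₀ / 2) (ε / 2) with hδ
  have hδpos : 0 < δ := by positivity
  have hδ1 : δ < δ₀ := lt_of_le_of_lt (min_le_left _ _) (by linarith)
  have hδ2 : δ < ε := lt_of_le_of_lt (min_le_right _ _) (by linarith)
  have hsph : IsCompact (sphere y₀ δ) := isCompact_sphere y₀ δ
  have hsne : (sphere y₀ δ).Nonempty := NormedSpace.sphere_nonempty.mpr hδpos.le
  obtain ⟨ym, hym, hmin⟩ := hsph.exists_isMinOn hsne
    ((hd l₀).continuous.norm.continuousOn)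
  set m : ℝ := ‖Φ l₀ ym‖ with hm
  have hmpos : 0 < m := by
    rw [hm, norm_pos_iff]
    apply hiso
    · rw [mem_sphere.mp hym]; exact hδ1
    · intro h
      have hh : ym = y₀ := h
      rw [hh, mem_sphere, dist_self] at hym
      linarith
  have hmin' : ∀ y ∈ sphere y₀ δ, m ≤ ‖Φ l₀ y‖ := fun y hy => hmin hy
  -- uniform closeness on the closed ball
  have hunif : ∀ᶠ l in 𝓝 l₀, ∀ y ∈ closedBall y₀ δ, ‖Φ l y - Φ l₀ y‖ < m / 12 := by
    have hK : IsCompact (closedBall y₀ δ) := isCompact_closedBall _ _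
    have hcont : Continuous (fun x : Λ × ℂ => ‖Φ x.1 x.2 - Φ l₀ x.2‖) := by
      refine (hc.sub ?_).norm
      exact hc.comp (continuous_const.prodMk continuous_snd)
    have hopen : IsOpen {x : Λ × ℂ | ‖Φ x.1 x.2 - Φ l₀ x.2‖ < m / 12} :=
      isOpen_lt hcont continuous_const
    have hsub : ({l₀} : Set Λ) ×ˢ closedBall y₀ δ ⊆
        {x : Λ × ℂ | ‖Φ x.1 x.2 - Φ l₀ x.2‖ < m / 12} := by
      rintro ⟨a, b⟩ ⟨ha, hb⟩
      have ha' : a = l₀ := ha
      subst ha'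
      show ‖Φ a b - Φ a b‖ < m / 12
      rw [sub_self, norm_zero]; positivity
    obtain ⟨u, v, hu, hv, hlu, hKv, huv⟩ :=
      generalized_tube_lemma isCompact_singleton hK hopen hsub
    filter_upwards [hu.mem_nhds (hlu (Set.mem_singleton l₀))] with l hl y hy
    have hmem : (l, y) ∈ u ×ˢ v := ⟨hl, hKv hy⟩
    exact huv hmem
  filter_upwards [hunif] with l hl
  have hcenter : ‖Φ l y₀‖ < m / 12 := by
    have := hl y₀ (mem_closedBall_self hδpos.le)
    rwa [h0, sub_zero] at this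
  have hsphere : ∀ z ∈ sphere y₀ δ, m / 2 ≤ ‖Φ l z - Φ l y₀‖ := by
    intro z hz
    have h1 := hl z (sphere_subset_closedBall hz)
    have h2 := hmin' z hz
    have h3 : ‖Φ l₀ z‖ ≤ ‖Φ l z - Φ l₀ z‖ + ‖Φ l z - Φ l y₀‖ + ‖Φ l y₀‖ := by
      calc ‖Φ l₀ z‖ = ‖-(Φ l z - Φ l₀ z) + (Φ l z - Φ l y₀) + Φ l y₀‖ := by
            congr 1; ring
        _ ≤ ‖-(Φ l z - Φ l₀ z) + (Φ l z - Φ l y₀)‖ + ‖Φ l y₀‖ := norm_add_le _ _
        _ ≤ ‖-(Φ l z - Φ l₀ z)‖ + ‖Φ l z - Φ l y₀‖ + ‖Φ l y₀‖ := by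
            gcongr; exact norm_add_le _ _
        _ = _ := by rw [norm_neg]
    linarith
  have hfreq : ∃ᶠ z in 𝓝 y₀, Φ l z ≠ Φ l y₀ := by
    intro hcon
    have hcon' : ∀ᶠ z in 𝓝 y₀, Φ l z = Φ l y₀ := by
      filter_upwards [hcon] with z hz
      simpa using hz
    have hBan : AnalyticOnNhd ℂ (Φ l) Set.univ := fun z _ => (hd l).analyticAt z
    have h5 := hBan.eqOn_of_preconnected_of_eventuallyEq (analyticOnNhd_const (v := Φ l y₀))
      isPreconnected_univ (Set.mem_univ y₀) hcon'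
    obtain ⟨z, hz⟩ := hsne
    have h6 := hsphere z hz
    have h7 : Φ l z = Φ l y₀ := h5 (Set.mem_univ z)
    rw [h7, sub_self, norm_zero] at h6
    linarith
  have hdiff : DiffContOnCl ℂ (Φ l) (ball y₀ δ) := (hd l).diffContOnCl
  have himg := hdiff.ball_subset_image_closedBall hδpos hsphere hfreq
  have h0mem : (0 : ℂ) ∈ ball (Φ l y₀) (m / 2 / 2) := by
    rw [mem_ball, dist_comm, dist_zero_right]
    linarith
  obtain ⟨y, hy, hy0⟩ := himg h0mem
  refine ⟨y, ?_, hy0⟩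
  rw [← dist_eq_norm]
  exact lt_of_le_of_lt (mem_closedBall.mp hy) hδ2

end Pool.Agent.H89
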