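import Mathlib

set_option autoImplicit false

namespace Pool.Agent.H89

open MvPolynomial

/-- Translate of a polynomial: `tr u p` is `z ↦ p (z + u)`. -/
noncomputable def tr (u : Fin 3 → ℂ) (p : MvPolynomial (Fin 3) ℂ) : MvPolynomial (Fin 3) ℂ :=
  aeval (fun i => X i + C (u i)) p

/-- Restriction of a polynomial to the line `T ↦ a + T b`. -/
noncomputable def line (p : MvPolynomial (Fin 3) ℂ) (a b : Fin 3 → ℂ) : Polynomial ℂ :=
  aeval (fun i => Polynomial.C (a i) + Polynomial.C (b i) * Polynomial.X) p

theorem eval_tr (u z : Fin 3 → ℂ) (p : MvPolynomial (Fin 3) ℂ) :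
    eval z (tr u p) = eval (z + u) p := by
  unfold tr
  have h : ((eval z : MvPolynomial (Fin 3) ℂ →+* ℂ).comp
      ((aeval (fun i => (X i : MvPolynomial (Fin 3) ℂ) + C (u i)) :
        MvPolynomial (Fin 3) ℂ →ₐ[ℂ] MvPolynomial (Fin 3) ℂ) : MvPolynomial (Fin 3) ℂ →+* _)) =
      eval (z + u) := by
    apply MvPolynomial.ringHom_ext
    · intro r; simp
    · intro i; simp
  exact RingHom.congr_fun h p

theorem eval_line (p : MvPolynomial (Fin 3) ℂ) (a b : Fin 3 → ℂ) (T : ℂ) :
    (line p a b).eval T = eval (a + T • b) p := by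
  unfold line
  have h : ((Polynomial.evalRingHom T).comp
      ((aeval (fun i => Polynomial.C (a i) + Polynomial.C (b i) * Polynomial.X) :
        MvPolynomial (Fin 3) ℂ →ₐ[ℂ] Polynomial ℂ) : MvPolynomial (Fin 3) ℂ →+* _)) =
      eval (a + T • b) := by
    apply MvPolynomial.ringHom_ext
    · intro r; simp
    · intro i
      simp only [RingHom.comp_apply, RingHom.coe_coe, aeval_X, Polynomial.coe_evalRingHom,
        Polynomial.eval_add, Polynomial.eval_C, Polynomial.eval_mul, Polynomial.eval_X, eval_X,
        Pi.add_apply, Pi.smul_apply, smul_eq_mul]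
      ring
  exact RingHom.congr_fun h p

theorem natDegree_line_le (p : MvPolynomial (Fin 3) ℂ) (a b : Fin 3 → ℂ) :
    (line p a b).natDegree ≤ p.totalDegree := by
  have := aeval_natDegree_le (m := p.totalDegree) (n := 1) p le_rfl
    (fun i => Polynomial.C (a i) + Polynomial.C (b i) * Polynomial.X) (fun i => by
      compute_degree)
  rw [mul_one] at this
  exact this

theorem line_monomial_coeff (β : Fin 3 →₀ ℕ) (c : ℂ) (a b : Fin 3 → ℂ) :
    (line (monomial β c) a b).coeff β.degree = c * ∏ i, b i ^ β i := by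
  unfold line
  rw [aeval_monomial, Finsupp.prod_fintype _ _ (fun i => pow_zero _), Finsupp.degree_eq_sum]
  simp only [Fin.prod_univ_three, Fin.sum_univ_three, Polynomial.algebraMap_eq,
    Polynomial.coeff_C_mul]
  have hd : ∀ i, (Polynomial.C (a i) + Polynomial.C (b i) * Polynomial.X).natDegree ≤ 1 := by
    intro i; compute_degree
  have hdp : ∀ i, ((Polynomial.C (a i) + Polynomial.C (b i) * Polynomial.X) ^ β i).natDegree
      ≤ β i := by
    intro i
    refine (Polynomial.natDegree_pow_le).trans ?_
    have := Nat.mul_le_mul_left (β i) (hd i)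
    simpa using this
  have hc : ∀ i, ((Polynomial.C (a i) + Polynomial.C (b i) * Polynomial.X) ^ β i).coeff (β i)
      = b i ^ β i := by
    intro i
    have := Polynomial.coeff_pow_of_natDegree_le (m := β i) (hd i)
    simpa using this
  rw [Polynomial.coeff_mul_add_eq_of_natDegree_le
    ((Polynomial.natDegree_mul_le).trans (add_le_add (hdp 0) (hdp 1))) (hdp 2),
    Polynomial.coeff_mul_add_eq_of_natDegree_le (hdp 0) (hdp 1), hc, hc, hc]

theorem natDegree_line_monomial_le (β : Fin 3 →₀ ℕ) (c : ℂ) (a b : Fin 3 → ℂ) :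
    (line (monomial β c) a b).natDegree ≤ β.degree := by
  refine (natDegree_line_le _ a b).trans ?_
  refine (totalDegree_monomial_le β c).trans ?_
  exact le_of_eq (Finsupp.degree_apply β).symm

theorem line_add (p q : MvPolynomial (Fin 3) ℂ) (a b : Fin 3 → ℂ) :
    line (p + q) a b = line p a b + line q a b := by
  unfold line; exact map_add _ _ _

theorem line_sum {ι : Type*} (s : Finset ι) (p : ι → MvPolynomial (Fin 3) ℂ) (a b : Fin 3 → ℂ) :
    line (∑ i ∈ s, p i) a b = ∑ i ∈ s, line (p i) a b := by
  unfold line; exact map_sum _ _ _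

/-- The coefficient of `T ^ d` of `T ↦ p (a + T b)` does not depend on `a` when `d ≥ deg p`. -/
theorem coeff_line_top (p : MvPolynomial (Fin 3) ℂ) {d : ℕ} (hd : p.totalDegree ≤ d)
    (a b : Fin 3 → ℂ) : (line p a b).coeff d = eval b (homogeneousComponent d p) := by
  conv_lhs => rw [p.as_sum]
  rw [line_sum, Polynomial.finsetSum_coeff, homogeneousComponent_apply, map_sum,
    Finset.sum_filter]
  refine Finset.sum_congr rfl fun β hβ => ?_
  have hle : β.degree ≤ d := by
    have h1 := le_totalDegree hβ
    have h2 : (β.sum fun _ e => e) = β.degree := (Finsupp.degree_apply β).symm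
    rw [← h2]; exact h1.trans hd
  split_ifs with h
  · rw [← h, line_monomial_coeff, eval_monomial, Finsupp.prod_fintype _ _ (fun i => pow_zero _)]
  · apply Polynomial.coeff_eq_zero_of_natDegree_lt
    exact lt_of_le_of_lt (natDegree_line_monomial_le _ _ _ _) (lt_of_le_of_ne hle h)

theorem totalDegree_tr_le (u : Fin 3 → ℂ) (p : MvPolynomial (Fin 3) ℂ) :
    (tr u p).totalDegree ≤ p.totalDegree := by
  unfold tr
  conv_lhs => rw [p.as_sum, map_sum]
  refine totalDegree_finsetSum_le fun β hβ => ?_
  rw [aeval_monomial, Finsupp.prod_fintype _ _ (fun i => pow_zero _)]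
  have h1 := le_totalDegree hβ
  have h2 : (β.sum fun _ e => e) = ∑ i, β i := by
    rw [Finsupp.sum_fintype]; simp
  refine (totalDegree_mul _ _).trans ?_
  have h3 : (algebraMap ℂ (MvPolynomial (Fin 3) ℂ) (coeff β p)).totalDegree = 0 :=
    totalDegree_C _
  rw [h3, zero_add]
  refine (totalDegree_finsetProd _ _).trans ?_
  refine le_trans ?_ h1
  rw [h2]
  apply Finset.sum_le_sum
  intro i _
  refine (totalDegree_pow _ _).trans ?_
  have h4 : (X i + C (u i) : MvPolynomial (Fin 3) ℂ).totalDegree ≤ 1 := by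
    refine (totalDegree_add _ _).trans ?_
    rw [totalDegree_X, totalDegree_C]; simp
  calc β i * _ ≤ β i * 1 := Nat.mul_le_mul_left _ h4
    _ = β i := mul_one _

theorem line_tr (u a b : Fin 3 → ℂ) (p : MvPolynomial (Fin 3) ℂ) :
    line (tr u p) a b = line p (a + u) b := by
  apply Polynomial.funext
  intro T
  rw [eval_line, eval_line, eval_tr]
  congr 2
  abel

/-- Translation does not change the homogeneous component of top degree. -/
theorem homogeneousComponent_tr (u : Fin 3 → ℂ) (p : MvPolynomial (Fin 3) ℂ) {d : ℕ}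
    (hd : p.totalDegree ≤ d) :
    homogeneousComponent d (tr u p) = homogeneousComponent d p := by
  apply MvPolynomial.funext
  intro b
  rw [← coeff_line_top (tr u p) ((totalDegree_tr_le u p).trans hd) 0 b,
    ← coeff_line_top p hd (0 + u) b, line_tr]

theorem coeff_tr_top (u : Fin 3 → ℂ) (p : MvPolynomial (Fin 3) ℂ) {β : Fin 3 →₀ ℕ}
    (hd : p.totalDegree ≤ β.degree) : coeff β (tr u p) = coeff β p := by
  have h := congrArg (coeff β) (homogeneousComponent_tr u p hd)
  rw [coeff_homogeneousComponent, coeff_homogeneousComponent] at h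
  simpa using h

theorem totalDegree_lt_of_coeff {p : MvPolynomial (Fin 3) ℂ} {d : ℕ} (hd0 : 0 < d)
    (h : ∀ β : Fin 3 →₀ ℕ, d ≤ β.degree → coeff β p = 0) : p.totalDegree < d := by
  by_contra hcon
  push Not at hcon
  by_cases hp : p = 0
  · rw [hp, totalDegree_zero] at hcon; omega
  obtain ⟨β, hβ, hβ'⟩ : ∃ β ∈ p.support, p.totalDegree = β.sum fun _ e => e := by
    have hne : p.support.Nonempty := by
      rw [Finset.nonempty_iff_ne_empty]; intro h0; exact hp (MvPolynomial.support_eq_empty.mp h0)
    exact Finset.exists_mem_eq_sup _ hne _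
  have h2 : (β.sum fun _ e => e) = β.degree := (Finsupp.degree_apply β).symm
  have := h β (by rw [← h2, ← hβ']; exact hcon)
  exact (MvPolynomial.mem_support_iff.mp hβ) this

theorem totalDegree_tr_sub_lt (u : Fin 3 → ℂ) (p : MvPolynomial (Fin 3) ℂ)
    (hp : 0 < p.totalDegree) : (tr u p - p).totalDegree < p.totalDegree := by
  refine totalDegree_lt_of_coeff hp fun β hβ => ?_
  rw [coeff_sub, coeff_tr_top u p hβ, sub_self]

end Pool.Agent.H89
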