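import Mathlib
import Pool.Agent.H89.PolyBasic
import Pool.Agent.H89.Hurwitz

set_option autoImplicit false

namespace Pool.Agent.H89

open MvPolynomial Filter Topology

/-- Exponent vectors with entries at most `d`. -/
abbrev Idx (d : ℕ) := Fin 3 → Fin (d + 1)

noncomputable def toMon {d : ℕ} (α : Idx d) : Fin 3 →₀ ℕ :=
  Finsupp.equivFunOnFinite.symm (fun i => (α i : ℕ))

theorem toMon_apply {d : ℕ} (α : Idx d) (i : Fin 3) : toMon α i = (α i : ℕ) := rfl

theorem toMon_injective {d : ℕ} : Function.Injective (toMon (d := d)) := by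
  intro α β h
  funext i
  apply Fin.ext
  have := DFunLike.congr_fun h i
  exact this

theorem toMon_surj {d : ℕ} {β : Fin 3 →₀ ℕ} (h : ∀ i, β i ≤ d) : ∃ α : Idx d, toMon α = β := by
  refine ⟨fun i => ⟨β i, Nat.lt_succ_of_le (h i)⟩, ?_⟩
  ext i; rfl

noncomputable def ofC (d : ℕ) (c : Idx d → ℂ) : MvPolynomial (Fin 3) ℂ :=
  ∑ α, monomial (toMon α) (c α)

noncomputable def cf (d : ℕ) (p : MvPolynomial (Fin 3) ℂ) : Idx d → ℂ :=
  fun α => coeff (toMon α) p

theorem coeff_ofC {d : ℕ} (c : Idx d → ℂ) (α : Idx d) : coeff (toMon α) (ofC d c) = c α := by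
  unfold ofC
  rw [coeff_sum]
  simp only [coeff_monomial]
  rw [Finset.sum_eq_single α]
  · simp
  · intro β _ hβ
    rw [if_neg]
    intro h; exact hβ (toMon_injective h)
  · intro h; exact absurd (Finset.mem_univ α) h

theorem coeff_ofC_of_not {d : ℕ} (c : Idx d → ℂ) {β : Fin 3 →₀ ℕ} (h : ∀ α : Idx d, toMon α ≠ β) :
    coeff β (ofC d c) = 0 := by
  unfold ofC
  rw [coeff_sum]
  refine Finset.sum_eq_zero fun α _ => ?_
  rw [coeff_monomial, if_neg (h α)]

theorem le_degree (β : Fin 3 →₀ ℕ) (i : Fin 3) : β i ≤ β.degree := by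
  rw [Finsupp.degree_eq_sum]
  exact Finset.single_le_sum (fun _ _ => Nat.zero_le _) (Finset.mem_univ i)

theorem coeff_eq_zero_of_degree {p : MvPolynomial (Fin 3) ℂ} {β : Fin 3 →₀ ℕ}
    (h : p.totalDegree < β.degree) : coeff β p = 0 := by
  by_contra hne
  have h1 := le_totalDegree (MvPolynomial.mem_support_iff.mpr hne)
  have h2 : (β.sum fun _ e => e) = β.degree := (Finsupp.degree_apply β).symm
  omega

theorem ofC_cf {d : ℕ} {p : MvPolynomial (Fin 3) ℂ} (h : p.totalDegree ≤ d) :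
    ofC d (cf d p) = p := by
  ext β
  by_cases hβ : ∃ α : Idx d, toMon α = β
  · obtain ⟨α, rfl⟩ := hβ
    rw [coeff_ofC]; rfl
  · push Not at hβ
    rw [coeff_ofC_of_not _ hβ]
    symm
    apply coeff_eq_zero_of_degree
    by_contra hcon
    push Not at hcon
    obtain ⟨α, hα⟩ := toMon_surj (d := d) (β := β) (fun i => (le_degree β i).trans (hcon.trans h))
    exact hβ α hα

theorem eval_ofC {d : ℕ} (c : Idx d → ℂ) (z : Fin 3 → ℂ) :
    eval z (ofC d c) = ∑ α, c α * ∏ i, z i ^ (α i : ℕ) := by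
  unfold ofC
  rw [map_sum]
  refine Finset.sum_congr rfl fun α _ => ?_
  rw [eval_monomial, Finsupp.prod_fintype _ _ (fun i => pow_zero _)]
  rfl

theorem continuous_eval_ofC (d : ℕ) :
    Continuous (fun x : (Idx d → ℂ) × (Fin 3 → ℂ) => eval x.2 (ofC d x.1)) := by
  simp only [eval_ofC]
  fun_prop

theorem ofC_ne_zero {d : ℕ} {c : Idx d → ℂ} (h : c ≠ 0) : ofC d c ≠ 0 := by
  intro h0
  apply h
  funext α
  rw [← coeff_ofC c α, h0, coeff_zero]; rfl

theorem ofC_smul {d : ℕ} (r : ℂ) (c : Idx d → ℂ) (z : Fin 3 → ℂ) :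
    eval z (ofC d (r • c)) = r * eval z (ofC d c) := by
  rw [eval_ofC, eval_ofC, Finset.mul_sum]
  refine Finset.sum_congr rfl fun α _ => ?_
  simp only [Pi.smul_apply, smul_eq_mul]; ring

/-- Several variables version of the persistence of zeros, for polynomials. -/
theorem hurwitz_poly {d : ℕ} {c₀ : Idx d → ℂ} (hc₀ : c₀ ≠ 0) {s₀ : Fin 3 → ℂ}
    (h0 : eval s₀ (ofC d c₀) = 0) {ε : ℝ} (hε : 0 < ε) :
    ∀ᶠ c in 𝓝 c₀, ∃ s, ‖s - s₀‖ < ε ∧ eval s (ofC d c) = 0 := by
  have hne := ofC_ne_zero hc₀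
  obtain ⟨z, hz⟩ : ∃ z : Fin 3 → ℂ, eval z (ofC d c₀) ≠ 0 := by
    by_contra hcon
    push Not at hcon
    exact hne (MvPolynomial.funext fun z => by rw [hcon z, map_zero])
  set w : Fin 3 → ℂ := z - s₀ with hw
  have hε' : 0 < ε / (‖w‖ + 1) := by positivity
  have hcont : Continuous (fun x : (Idx d → ℂ) × ℂ => eval (s₀ + x.2 • w) (ofC d x.1)) := by
    simp only [eval_ofC]
    fun_prop
  have hd : ∀ c : Idx d → ℂ, Differentiable ℂ (fun y : ℂ => eval (s₀ + y • w) (ofC d c)) := by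
    intro c
    have : (fun y : ℂ => eval (s₀ + y • w) (ofC d c)) = fun y => (line (ofC d c) s₀ w).eval y := by
      funext y; rw [eval_line]
    rw [this]
    exact Polynomial.differentiable _
  have h00 : eval (s₀ + (0 : ℂ) • w) (ofC d c₀) = 0 := by
    rw [zero_smul, add_zero]; exact h0
  have h11 : eval (s₀ + (1 : ℂ) • w) (ofC d c₀) ≠ 0 := by
    rw [one_smul, hw, add_sub_cancel]; exact hz
  have h1 := hurwitz (Φ := fun (c : Idx d → ℂ) (y : ℂ) => eval (s₀ + y • w) (ofC d c)) hcont hd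
    (l₀ := c₀) (y₀ := 0) h00 ⟨1, h11⟩ hε'
  filter_upwards [h1] with c hc
  obtain ⟨y, hy, hy0⟩ := hc
  refine ⟨s₀ + y • w, ?_, hy0⟩
  rw [add_sub_cancel_left, norm_smul]
  rw [sub_zero] at hy
  calc ‖y‖ * ‖w‖ ≤ ‖y‖ * (‖w‖ + 1) := by gcongr; linarith
    _ < ε / (‖w‖ + 1) * (‖w‖ + 1) := by gcongr
    _ = ε := by field_simp

/-- A pair of polynomials vanishing at `0` on whose zero sets the kernel `F (u - v)` has rank at
most `n`. -/
def GoodPair (F : (Fin 3 → ℂ) → ℂ) (n : ℕ) (p q : MvPolynomial (Fin 3) ℂ) : Prop :=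
  p ≠ 0 ∧ q ≠ 0 ∧ eval 0 p = 0 ∧ eval 0 q = 0 ∧
    ∀ u v : Fin (n + 1) → (Fin 3 → ℂ), (∀ i, eval (u i) p = 0) → (∀ j, eval (v j) q = 0) →
      Matrix.det (Matrix.of fun i j => F (u i - v j)) = 0

theorem tr_ne_zero {p : MvPolynomial (Fin 3) ℂ} (hp : p ≠ 0) (u : Fin 3 → ℂ) : tr u p ≠ 0 := by
  intro h
  apply hp
  apply MvPolynomial.funext
  intro z
  have := eval_tr u (z - u) p
  rw [h, map_zero, sub_add_cancel] at this
  rw [← this, map_zero]

theorem totalDegree_pos {p : MvPolynomial (Fin 3) ℂ} (hp : p ≠ 0) {a : Fin 3 → ℂ}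
    (h0 : eval a p = 0) : 0 < p.totalDegree := by
  rw [Nat.pos_iff_ne_zero]
  intro h
  rw [totalDegree_eq_zero_iff_eq_C.mp h, eval_C] at h0
  apply hp
  rw [totalDegree_eq_zero_iff_eq_C.mp h, h0, C_0]

theorem norm_cf_pos {d : ℕ} {p : MvPolynomial (Fin 3) ℂ} (hp : p ≠ 0) (hd : p.totalDegree ≤ d) :
    0 < ‖cf d p‖ := by
  rw [norm_pos_iff]
  intro h
  apply hp
  rw [← ofC_cf hd, h]
  unfold ofC
  simp

/-- The single polynomial part of the degeneration. -/
theorem degen_single {p : MvPolynomial (Fin 3) ℂ} (hp : p ≠ 0) {d : ℕ} (hd : p.totalDegree = d)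
    {u : ℕ → Fin 3 → ℂ} (hu : ∀ k, eval (u k) p = 0) {φ : ℕ → ℕ} (hφ : StrictMono φ)
    {a : Idx d → ℂ} {c : ℕ → Idx d → ℂ} (hc : ∀ k, c k = cf d (tr (u k) p))
    (ha : Tendsto (fun k => ((‖c (φ k)‖⁻¹ : ℝ) : ℂ) • c (φ k)) atTop (𝓝 a)) :
    a ≠ 0 ∧ eval 0 (ofC d a) = 0 ∧ (ofC d a).totalDegree ≤ d ∧
      (Tendsto (fun k => ‖c k‖) atTop atTop → (ofC d a).totalDegree < d) ∧
      ∀ (s : Fin 3 → ℂ), eval s (ofC d a) = 0 → ∀ ε > 0, ∀ᶠ k in atTop,
        ∃ s', ‖s' - s‖ < ε ∧ eval (s' + u (φ k)) p = 0 := by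
  have hcpos : ∀ k, 0 < ‖c k‖ := by
    intro k
    rw [hc]
    exact norm_cf_pos (tr_ne_zero hp _) ((totalDegree_tr_le _ _).trans hd.le)
  have hnorm : ∀ k, ‖((‖c (φ k)‖⁻¹ : ℝ) : ℂ) • c (φ k)‖ = 1 := by
    intro k
    rw [norm_smul, Complex.norm_real, norm_inv, norm_norm, inv_mul_cancel₀ (hcpos _).ne']
  have hevalc : ∀ k z, eval z (ofC d (c k)) = eval (z + u k) p := by
    intro k z
    rw [hc, ofC_cf ((totalDegree_tr_le _ _).trans hd.le), eval_tr]
  have ha1 : ‖a‖ = 1 := by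
    have h1 := ha.norm
    have h2 : Tendsto (fun k => ‖((‖c (φ k)‖⁻¹ : ℝ) : ℂ) • c (φ k)‖) atTop (𝓝 1) := by
      simp only [hnorm]; exact tendsto_const_nhds
    exact tendsto_nhds_unique h1 h2
  have ha0 : a ≠ 0 := by
    intro h; rw [h, norm_zero] at ha1; exact zero_ne_one ha1
  have hdpos : 0 < d := hd ▸ totalDegree_pos hp (hu 0)
  -- coefficients
  have hcoef : ∀ α : Idx d, Tendsto (fun k => ((‖c (φ k)‖⁻¹ : ℝ) : ℂ) * c (φ k) α) atTop
      (𝓝 (a α)) := by
    intro α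
    have := (tendsto_pi_nhds.mp ha) α
    simpa using this
  refine ⟨ha0, ?_, ?_, ?_, ?_⟩
  · have h1 : Tendsto (fun k => eval 0 (ofC d (((‖c (φ k)‖⁻¹ : ℝ) : ℂ) • c (φ k)))) atTop
        (𝓝 (eval 0 (ofC d a))) := by
      have hcont : Continuous (fun c : Idx d → ℂ => eval (0 : Fin 3 → ℂ) (ofC d c)) := by
        simp only [eval_ofC]
        fun_prop
      exact (hcont.tendsto a).comp ha
    have h2 : ∀ k, eval 0 (ofC d (((‖c (φ k)‖⁻¹ : ℝ) : ℂ) • c (φ k))) = 0 := by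
      intro k
      rw [ofC_smul, hevalc, zero_add, hu, mul_zero]
    simp only [h2] at h1
    exact tendsto_nhds_unique h1 tendsto_const_nhds
  · have : (ofC d a).totalDegree < d + 1 := by
      refine totalDegree_lt_of_coeff (Nat.succ_pos d) fun β hβ => ?_
      by_cases h : ∃ α : Idx d, toMon α = β
      · obtain ⟨α, rfl⟩ := h
        rw [coeff_ofC]
        have h1 : ∀ k, c (φ k) α = 0 := by
          intro k
          have : (tr (u (φ k)) p).totalDegree < (toMon α).degree :=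
            lt_of_le_of_lt ((totalDegree_tr_le _ _).trans hd.le) hβ
          rw [hc]
          exact coeff_eq_zero_of_degree this
        have h2 := hcoef α
        simp only [h1, mul_zero] at h2
        exact (tendsto_nhds_unique h2 tendsto_const_nhds)
      · push Not at h
        exact coeff_ofC_of_not _ h
    omega
  · intro htop
    refine totalDegree_lt_of_coeff hdpos fun β hβ => ?_
    by_cases h : ∃ α : Idx d, toMon α = β
    · obtain ⟨α, rfl⟩ := h
      rw [coeff_ofC]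
      have h1 : ∀ k, c (φ k) α = coeff (toMon α) p := by
        intro k
        rw [hc]
        exact coeff_tr_top _ _ (hd.le.trans hβ)
      have h2 := hcoef α
      simp only [h1] at h2
      have h3 : Tendsto (fun k => ((‖c (φ k)‖⁻¹ : ℝ) : ℂ)) atTop (𝓝 0) := by
        have h4 : Tendsto (fun k => ‖c (φ k)‖⁻¹) atTop (𝓝 0) :=
          (htop.comp hφ.tendsto_atTop).inv_tendsto_atTop
        have := (Complex.continuous_ofReal.tendsto 0).comp h4
        rw [Complex.ofReal_zero] at this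
        exact this
      have h5 := h3.mul_const (coeff (toMon α) p)
      rw [zero_mul] at h5
      exact tendsto_nhds_unique h2 h5
    · push Not at h
      exact coeff_ofC_of_not _ h
  · intro s hs ε hε
    have h1 := ha.eventually (hurwitz_poly ha0 hs hε)
    filter_upwards [h1] with k hk
    obtain ⟨s', hs', hs0⟩ := hk
    refine ⟨s', hs', ?_⟩
    have h2 := ofC_smul ((‖c (φ k)‖⁻¹ : ℝ) : ℂ) (c (φ k)) s'
    rw [hevalc] at h2
    have h3 : ((‖c (φ k)‖⁻¹ : ℝ) : ℂ) ≠ 0 := by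
      exact_mod_cast (inv_pos.mpr (hcpos _)).ne'
    have h4 : ((‖c (φ k)‖⁻¹ : ℝ) : ℂ) * eval (s' + u (φ k)) p = 0 := by
      rw [← h2]; exact hs0
    exact (mul_eq_zero.mp h4).resolve_left h3

/-- Degeneration of a good pair along a sequence of common zeros. -/
theorem degen {F : (Fin 3 → ℂ) → ℂ} (hF : Continuous F) {n : ℕ}
    {p q : MvPolynomial (Fin 3) ℂ} (hg : GoodPair F n p q) {u : ℕ → Fin 3 → ℂ}
    (hup : ∀ k, eval (u k) p = 0) (huq : ∀ k, eval (u k) q = 0) :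
    ∃ P Q : MvPolynomial (Fin 3) ℂ, GoodPair F n P Q ∧ P.totalDegree ≤ p.totalDegree ∧
      Q.totalDegree ≤ q.totalDegree ∧
      (Tendsto (fun k => ‖cf p.totalDegree (tr (u k) p)‖) atTop atTop →
        P.totalDegree < p.totalDegree) ∧
      (Tendsto (fun k => ‖cf q.totalDegree (tr (u k) q)‖) atTop atTop →
        Q.totalDegree < q.totalDegree) := by
  obtain ⟨hp, hq, hp0, hq0, hrank⟩ := hg
  set c : ℕ → Idx p.totalDegree → ℂ := fun k => cf p.totalDegree (tr (u k) p) with hc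
  set e : ℕ → Idx q.totalDegree → ℂ := fun k => cf q.totalDegree (tr (u k) q) with he
  have hcpos : ∀ k, 0 < ‖c k‖ := fun k => norm_cf_pos (tr_ne_zero hp _) (totalDegree_tr_le _ _)
  have hepos : ∀ k, 0 < ‖e k‖ := fun k => norm_cf_pos (tr_ne_zero hq _) (totalDegree_tr_le _ _)
  have hcomp : IsCompact (Metric.closedBall (0 : (Idx p.totalDegree → ℂ) × (Idx q.totalDegree → ℂ)) 1) :=
    isCompact_closedBall _ _
  obtain ⟨ab, -, φ, hφ, hlim⟩ := hcomp.tendsto_subseq
    (x := fun k => (((‖c k‖⁻¹ : ℝ) : ℂ) • c k, ((‖e k‖⁻¹ : ℝ) : ℂ) • e k)) (by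
      intro k
      rw [mem_closedBall_zero_iff, Prod.norm_def]
      refine max_le ?_ ?_
      · simp only
        rw [norm_smul, Complex.norm_real, norm_inv, norm_norm, inv_mul_cancel₀ (hcpos _).ne']
      · simp only
        rw [norm_smul, Complex.norm_real, norm_inv, norm_norm, inv_mul_cancel₀ (hepos _).ne'])
  have hla := (continuous_fst.tendsto ab).comp hlim
  have hlb := (continuous_snd.tendsto ab).comp hlim
  obtain ⟨ha0, haz, had, hadl, hah⟩ := degen_single hp rfl hup hφ (fun _ => rfl) hla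
  obtain ⟨hb0, hbz, hbd, hbdl, hbh⟩ := degen_single hq rfl huq hφ (fun _ => rfl) hlb
  refine ⟨ofC _ ab.1, ofC _ ab.2, ⟨ofC_ne_zero ha0, ofC_ne_zero hb0, haz, hbz, ?_⟩, had, hbd,
    hadl, hbdl⟩
  intro s t hs ht
  -- closure argument
  set Z : Set ((Fin (n + 1) → (Fin 3 → ℂ)) × (Fin (n + 1) → (Fin 3 → ℂ))) :=
    {x | Matrix.det (Matrix.of fun i j => F (x.1 i - x.2 j)) = 0} with hZ
  have hZc : IsClosed Z := by
    refine isClosed_eq ?_ continuous_const
    refine Continuous.matrix_det ?_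
    refine continuous_pi fun i => continuous_pi fun j => ?_
    refine hF.comp ?_
    fun_prop
  have hmem : (s, t) ∈ closure Z := by
    rw [Metric.mem_closure_iff]
    intro ε hε
    have h1 : ∀ᶠ k in atTop, ∀ i, ∃ s', ‖s' - s i‖ < ε / 2 ∧ eval (s' + u (φ k)) p = 0 := by
      rw [eventually_all]; intro i; exact hah (s i) (hs i) (ε / 2) (half_pos hε)
    have h2 : ∀ᶠ k in atTop, ∀ j, ∃ t', ‖t' - t j‖ < ε / 2 ∧ eval (t' + u (φ k)) q = 0 := by
      rw [eventually_all]; intro i; exact hbh (t i) (ht i) (ε / 2) (half_pos hε)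
    obtain ⟨k, hk1, hk2⟩ := (h1.and h2).exists
    choose s' hs' hs0 using hk1
    choose t' ht' ht0 using hk2
    refine ⟨(s', t'), ?_, ?_⟩
    · have h3 := hrank (fun i => s' i + u (φ k)) (fun j => t' j + u (φ k)) hs0 ht0
      have h4 : (Matrix.of fun i j => F (s' i + u (φ k) - (t' j + u (φ k)))) =
          Matrix.of fun i j => F (s' i - t' j) := by
        ext i j; simp only [Matrix.of_apply]; congr 1; abel
      rw [h4] at h3
      exact h3
    · rw [Prod.dist_eq]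
      refine max_lt ?_ ?_
      · refine lt_of_le_of_lt ((dist_pi_le_iff (half_pos hε).le).mpr fun i => ?_) (half_lt_self hε)
        rw [dist_comm, dist_eq_norm]; exact (hs' i).le
      · refine lt_of_le_of_lt ((dist_pi_le_iff (half_pos hε).le).mpr fun i => ?_) (half_lt_self hε)
        rw [dist_comm, dist_eq_norm]; exact (ht' i).le
  rw [hZc.closure_eq] at hmem
  exact hmem

theorem norm_eval_le_cf {d : ℕ} {p : MvPolynomial (Fin 3) ℂ} (hd : p.totalDegree ≤ d)
    (s : Fin 3 → ℂ) : ‖eval s p‖ ≤ ‖cf d p‖ * ∑ α : Idx d, ‖∏ i, s i ^ (α i : ℕ)‖ := by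
  conv_lhs => rw [← ofC_cf hd, eval_ofC]
  refine (norm_sum_le _ _).trans ?_
  rw [Finset.mul_sum]
  refine Finset.sum_le_sum fun α _ => ?_
  rw [norm_mul]
  exact mul_le_mul_of_nonneg_right (norm_le_pi_norm (cf d p) α) (norm_nonneg _)

/-- A good pair of minimal total degree has bounded translates along its common zeros. -/
theorem exists_min_good {F : (Fin 3 → ℂ) → ℂ} (hF : Continuous F) {n : ℕ}
    {p₀ q₀ : MvPolynomial (Fin 3) ℂ} (hg₀ : GoodPair F n p₀ q₀) :
    ∃ p q : MvPolynomial (Fin 3) ℂ, GoodPair F n p q ∧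
      (∀ s, ∃ M : ℝ, ∀ u ∈ {u | eval u p = 0 ∧ eval u q = 0}, ‖eval (u + s) p‖ ≤ M) ∧
      (∀ s, ∃ M : ℝ, ∀ u ∈ {u | eval u p = 0 ∧ eval u q = 0}, ‖eval (u + s) q‖ ≤ M) := by
  classical
  have hex : ∃ k : ℕ, ∃ p q : MvPolynomial (Fin 3) ℂ, GoodPair F n p q ∧
      p.totalDegree + q.totalDegree = k := ⟨_, p₀, q₀, hg₀, rfl⟩
  obtain ⟨p, q, hg, hk⟩ := Nat.find_spec hex
  have hmin : ∀ P Q : MvPolynomial (Fin 3) ℂ, GoodPair F n P Q →
      p.totalDegree + q.totalDegree ≤ P.totalDegree + Q.totalDegree := by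
    intro P Q h
    rw [hk]
    exact Nat.find_min' hex ⟨P, Q, h, rfl⟩
  refine ⟨p, q, hg, ?_, ?_⟩
  · have hbd : ∃ M : ℝ, ∀ u ∈ {u | eval u p = 0 ∧ eval u q = 0},
        ‖cf p.totalDegree (tr u p)‖ ≤ M := by
      by_contra hcon
      push Not at hcon
      choose u hu hun using fun k : ℕ => hcon (k : ℝ)
      obtain ⟨P, Q, hPQ, -, hQ, hP, -⟩ := degen hF hg (u := u) (fun k => (hu k).1)
        (fun k => (hu k).2)
      have htop : Tendsto (fun k => ‖cf p.totalDegree (tr (u k) p)‖) atTop atTop :=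
        tendsto_atTop_mono (fun k => (hun k).le) tendsto_natCast_atTop_atTop
      have h1 := hP htop
      have h2 := hmin P Q hPQ
      omega
    obtain ⟨M, hM⟩ := hbd
    intro s
    refine ⟨M * ∑ α : Idx p.totalDegree, ‖∏ i, s i ^ (α i : ℕ)‖, fun u hu => ?_⟩
    rw [add_comm, ← eval_tr]
    refine (norm_eval_le_cf (totalDegree_tr_le u p) s).trans ?_
    exact mul_le_mul_of_nonneg_right (hM u hu) (Finset.sum_nonneg fun _ _ => norm_nonneg _)
  · have hbd : ∃ M : ℝ, ∀ u ∈ {u | eval u p = 0 ∧ eval u q = 0},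
        ‖cf q.totalDegree (tr u q)‖ ≤ M := by
      by_contra hcon
      push Not at hcon
      choose u hu hun using fun k : ℕ => hcon (k : ℝ)
      obtain ⟨P, Q, hPQ, hP, -, -, hQ⟩ := degen hF hg (u := u) (fun k => (hu k).1)
        (fun k => (hu k).2)
      have htop : Tendsto (fun k => ‖cf q.totalDegree (tr (u k) q)‖) atTop atTop :=
        tendsto_atTop_mono (fun k => (hun k).le) tendsto_natCast_atTop_atTop
      have h1 := hQ htop
      have h2 := hmin P Q hPQ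
      omega
    obtain ⟨M, hM⟩ := hbd
    intro s
    refine ⟨M * ∑ α : Idx q.totalDegree, ‖∏ i, s i ^ (α i : ℕ)‖, fun u hu => ?_⟩
    rw [add_comm, ← eval_tr]
    refine (norm_eval_le_cf (totalDegree_tr_le u q) s).trans ?_
    exact mul_le_mul_of_nonneg_right (hM u hu) (Finset.sum_nonneg fun _ _ => norm_nonneg _)

end Pool.Agent.H89
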