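import Mathlib

set_option autoImplicit false

namespace Pool.Agent.H89

open Matrix

/-- Minors of size `r + 1` vanish: the kernel `K` has rank at most `r`. -/
def RankLE {X Y : Type*} (n : ℕ) (K : X → Y → ℂ) : Prop :=
  ∀ (x : Fin (n + 1) → X) (y : Fin (n + 1) → Y), Matrix.det (fun i j => K (x i) (y j)) = 0

theorem schur_aux {X Y : Type*} {K : X → Y → ℂ} {r : ℕ} (h : RankLE r K)
    (x' : Fin r → X) (y' : Fin r → Y)
    (h0 : Matrix.det (Matrix.of fun i j => K (x' i) (y' j)) ≠ 0) (a : X) (b : Y) :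
    K a b = ((Matrix.of fun (_ : Fin 1) j => K a (y' j)) *
      (Matrix.of fun i j => K (x' i) (y' j))⁻¹ * (Matrix.of fun i (_ : Fin 1) => K (x' i) b)) 0 0 := by
  set M : Matrix (Fin r) (Fin r) ℂ := Matrix.of fun i j => K (x' i) (y' j) with hM
  set Rw : Matrix (Fin 1) (Fin r) ℂ := Matrix.of fun _ j => K a (y' j) with hR
  set Cl : Matrix (Fin r) (Fin 1) ℂ := Matrix.of fun i _ => K (x' i) b with hC
  set D : Matrix (Fin 1) (Fin 1) ℂ := Matrix.of fun _ _ => K a b with hD
  have hdet : Matrix.det (Matrix.fromBlocks M Cl Rw D) = 0 := by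
    have h1 := h (Fin.append x' (fun _ : Fin 1 => a)) (Fin.append y' (fun _ : Fin 1 => b))
    rw [← h1]
    have : Matrix.fromBlocks M Cl Rw D =
        (Matrix.of fun i j => K (Fin.append x' (fun _ : Fin 1 => a) i)
          (Fin.append y' (fun _ : Fin 1 => b) j)).submatrix finSumFinEquiv finSumFinEquiv := by
      ext i j
      rcases i with i | i <;> rcases j with j | j <;>
        simp [hM, hR, hC, hD]
    rw [this, Matrix.det_submatrix_equiv_self]
    rfl
  have : Invertible M := Matrix.invertibleOfIsUnitDet M (isUnit_iff_ne_zero.mpr h0)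
  rw [Matrix.det_fromBlocks₁₁] at hdet
  have h2 : Matrix.det (D - Rw * ⅟M * Cl) = 0 := by
    rcases mul_eq_zero.mp hdet with h | h
    · exact absurd h h0
    · exact h
  rw [Matrix.det_fin_one] at h2
  have h3 : D 0 0 = (Rw * ⅟M * Cl) 0 0 := by
    have : (D - Rw * ⅟M * Cl) 0 0 = D 0 0 - (Rw * ⅟M * Cl) 0 0 := rfl
    rw [this] at h2
    exact sub_eq_zero.mp h2
  rw [Matrix.invOf_eq_nonsing_inv] at h3
  exact h3

/-- Multiplicativity of the `r × r` minors of a kernel of rank at most `r`. -/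
theorem minors_mul {X Y : Type*} {K : X → Y → ℂ} {r : ℕ} (h : RankLE r K)
    (x x' : Fin r → X) (y y' : Fin r → Y)
    (h0 : Matrix.det (Matrix.of fun i j => K (x' i) (y' j)) ≠ 0) :
    Matrix.det (Matrix.of fun i j => K (x i) (y j)) *
        Matrix.det (Matrix.of fun i j => K (x' i) (y' j)) =
      Matrix.det (Matrix.of fun i j => K (x i) (y' j)) *
        Matrix.det (Matrix.of fun i j => K (x' i) (y j)) := by
  have key : (Matrix.of fun i j => K (x i) (y j)) =
      (Matrix.of fun i j => K (x i) (y' j)) * (Matrix.of fun i j => K (x' i) (y' j))⁻¹ *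
        (Matrix.of fun i j => K (x' i) (y j)) := by
    ext i j
    rw [Matrix.of_apply, schur_aux h x' y' h0 (x i) (y j)]
    simp only [Matrix.mul_apply, Matrix.of_apply]
  have hinv : Matrix.det (Matrix.of fun i j => K (x' i) (y' j))⁻¹ *
      Matrix.det (Matrix.of fun i j => K (x' i) (y' j)) = 1 := by
    rw [Matrix.det_nonsing_inv, Ring.inverse_mul_cancel]
    exact isUnit_iff_ne_zero.mpr h0
  rw [key, Matrix.det_mul, Matrix.det_mul]
  linear_combination (Matrix.det (Matrix.of fun i j => K (x i) (y' j)) *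
    Matrix.det (Matrix.of fun i j => K (x' i) (y j))) * hinv

/-- From a kernel family of uniformly bounded rank, extract the exact maximal rank. -/
theorem exists_max_rank {T X Y : Type*} {K : T → X → Y → ℂ} {n : ℕ} (h : ∀ t, RankLE n (K t))
    (hne : ∃ t x y, K t x y ≠ 0) :
    ∃ r : ℕ, 0 < r ∧ (∀ t, RankLE r (K t)) ∧
      ∃ (t : T) (x : Fin r → X) (y : Fin r → Y),
        Matrix.det (Matrix.of fun i j => K t (x i) (y j)) ≠ 0 := by
  classical
  have hex : ∃ m, ∀ t, RankLE m (K t) := ⟨n, h⟩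
  obtain ⟨t₀, x₀, y₀, h0⟩ := hne
  have hpos : Nat.find hex ≠ 0 := by
    intro hz
    have h1 := Nat.find_spec hex
    rw [hz] at h1
    have h2 := h1 t₀ (fun _ => x₀) (fun _ => y₀)
    exact h0 ((Matrix.det_fin_one _).symm.trans h2)
  refine ⟨Nat.find hex, Nat.pos_of_ne_zero hpos, Nat.find_spec hex, ?_⟩
  obtain ⟨m, hm⟩ := Nat.exists_eq_succ_of_ne_zero hpos
  have hlt : m < Nat.find hex := by omega
  have := Nat.find_min hex hlt
  simp only [not_forall, RankLE] at this
  obtain ⟨t, x, y, hxy⟩ := this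
  rw [hm]
  exact ⟨t, x, y, hxy⟩

end Pool.Agent.H89
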