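import Mathlib
import Pool.Agent.H89.Det

set_option autoImplicit false

namespace Pool.Agent.H89

open Filter Topology Complex

/-- Entire functions with `‖A‖ ≤ K ‖B‖` are proportional. -/
theorem ratio_liouville {A B : ℂ → ℂ} (hA : Differentiable ℂ A) (hB : Differentiable ℂ B)
    {K : ℝ} (h : ∀ t, ‖A t‖ ≤ K * ‖B t‖) : ∃ c : ℂ, ∀ t, A t = c * B t := by
  by_cases hB0 : ∀ t, B t = 0
  · refine ⟨0, fun t => ?_⟩
    have := h t
    rw [hB0 t] at this
    simp only [norm_zero, mul_zero] at this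
    rw [zero_mul]
    exact norm_le_zero_iff.mp this
  push Not at hB0
  obtain ⟨t₀, ht₀⟩ := hB0
  -- zeros of B are isolated
  have hBan : AnalyticOnNhd ℂ B Set.univ := fun z _ => hB.analyticAt z
  have hiso : ∀ z, ∀ᶠ w in 𝓝[≠] z, B w ≠ 0 := by
    intro z
    rcases (hB.analyticAt z).eventually_eq_zero_or_eventually_ne_zero with h1 | h1
    · exfalso
      have := hBan.eqOn_zero_of_preconnected_of_eventuallyEq_zero isPreconnected_univ
        (Set.mem_univ z) h1
      exact ht₀ (this (Set.mem_univ t₀))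
    · exact h1
  set q : ℂ → ℂ := fun t => A t / B t with hq
  have hqb : ∀ t, ‖q t‖ ≤ |K| := by
    intro t
    by_cases hbt : B t = 0
    · simp only [hq, hbt, div_zero, norm_zero]; exact abs_nonneg K
    · rw [hq]
      simp only [norm_div]
      rw [div_le_iff₀ (norm_pos_iff.mpr hbt)]
      exact (h t).trans (mul_le_mul_of_nonneg_right (le_abs_self K) (norm_nonneg _))
  set g : ℂ → ℂ := fun z => limUnder (𝓝[≠] z) q with hg
  have hqd : ∀ z, B z ≠ 0 → DifferentiableAt ℂ q z := fun z hz => (hA z).div (hB z) hz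
  have hgq : ∀ z, B z ≠ 0 → g z = q z := by
    intro z hz
    have : Tendsto q (𝓝[≠] z) (𝓝 (q z)) := (hqd z hz).continuousAt.tendsto.mono_left nhdsWithin_le_nhds
    exact this.limUnder_eq
  have hgd : Differentiable ℂ g := by
    intro c
    obtain ⟨s, hs, hs'⟩ : ∃ s ∈ 𝓝 c, ∀ w ∈ s \ {c}, B w ≠ 0 := by
      have := hiso c
      rw [eventually_nhdsWithin_iff] at this
      refine ⟨_, this, ?_⟩
      intro w hw
      exact hw.1 hw.2
    have hd : DifferentiableOn ℂ q (s \ {c}) := fun w hw => (hqd w (hs' w hw)).differentiableWithinAt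
    have hb : BddAbove (norm ∘ q '' (s \ {c})) := by
      refine ⟨|K|, ?_⟩
      rintro _ ⟨w, _, rfl⟩
      exact hqb w
    have h1 := Complex.differentiableOn_update_limUnder_of_bddAbove hs hd hb
    have h2 := h1.differentiableAt hs
    refine h2.congr_of_eventuallyEq ?_
    filter_upwards [hs] with w hw
    by_cases hwc : w = c
    · subst hwc; simp [hg]
    · rw [Function.update_of_ne hwc]
      exact hgq w (hs' w ⟨hw, hwc⟩)
  have hgb : ∀ z, ‖g z‖ ≤ |K| := by
    intro z
    have hcl : IsClosed {w : ℂ | ‖g w‖ ≤ |K|} := isClosed_le hgd.continuous.norm continuous_const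
    by_contra hcon
    have hop : {w : ℂ | ‖g w‖ ≤ |K|}ᶜ ∈ 𝓝 z := hcl.isOpen_compl.mem_nhds hcon
    have h3 : ∀ᶠ w in 𝓝[≠] z, w ∈ {w : ℂ | ‖g w‖ ≤ |K|}ᶜ := mem_nhdsWithin_of_mem_nhds hop
    obtain ⟨w, hw1, hw2⟩ := (h3.and (hiso z)).exists
    apply hw1
    show ‖g w‖ ≤ |K|
    rw [hgq w hw2]
    exact hqb w
  have hconst : ∀ z w, g z = g w := by
    intro z w
    apply hgd.apply_eq_apply_of_bounded
    rw [Metric.isBounded_iff_subset_closedBall 0]
    refine ⟨|K|, ?_⟩
    rintro _ ⟨w, rfl⟩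
    simpa using hgb w
  refine ⟨g t₀, fun t => ?_⟩
  by_cases hbt : B t = 0
  · have h4 := h t
    rw [hbt] at h4 ⊢
    simp only [norm_zero, mul_zero] at h4 ⊢
    exact norm_le_zero_iff.mp h4
  · rw [hconst t₀ t, hgq t hbt, hq]
    field_simp

/-- An entire function tending to `0` at infinity vanishes. -/
theorem entire_zero_of_tendsto {f : ℂ → ℂ} (hf : Differentiable ℂ f)
    (h : Tendsto f (cocompact ℂ) (𝓝 0)) : ∀ z, f z = 0 := by
  intro z
  have := hf.apply_eq_of_tendsto_cocompact z h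
  exact this

/-- Determinants of matrices whose entries tend to `0` tend to `0`. -/
theorem tendsto_det_zero {α : Type*} {l : Filter α} {r : ℕ} (hr0 : 0 < r)
    {M : α → Fin r → Fin r → ℂ} (h : ∀ i j, Tendsto (fun a => M a i j) l (𝓝 0)) :
    Tendsto (fun a => Matrix.det (Matrix.of (M a))) l (𝓝 0) := by
  have : Nonempty (Fin r) := ⟨⟨0, hr0⟩⟩
  have h2 : Tendsto (fun a => (M a : Fin r → Fin r → ℂ)) l (𝓝 (fun _ _ => 0)) := by
    rw [tendsto_pi_nhds]; intro i; rw [tendsto_pi_nhds]; intro j; exact h i j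
  have h3 : Tendsto (fun M : Fin r → Fin r → ℂ => (Matrix.of M).det) (𝓝 (fun _ _ => 0))
      (𝓝 (Matrix.det (Matrix.of fun (_ _ : Fin r) => (0 : ℂ)))) := by
    have hc : Continuous (fun M : Fin r → Fin r → ℂ => (Matrix.of M).det) :=
      Continuous.matrix_det continuous_id
    exact hc.tendsto _
  have h4 : Matrix.det (Matrix.of fun (_ _ : Fin r) => (0 : ℂ)) = 0 := by
    exact Matrix.det_zero (n := Fin r) (R := ℂ)
  rw [h4] at h3
  exact h3.comp h2

/-- Real-direction lemma. -/
theorem hankel_real {h : ℂ → ℂ} {n : ℕ} (hr : RankLE n (fun s t : ℂ => h (s + t)))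
    (hd : ∀ w : ℂ, Tendsto (fun τ : ℝ => h (w + (τ : ℂ))) (cocompact ℝ) (𝓝 0)) :
    ∀ s, h s = 0 := by
  by_contra hcon
  push Not at hcon
  obtain ⟨s₀, hs₀⟩ := hcon
  obtain ⟨r, hr0, hrk, -, x, y, hxy⟩ := exists_max_rank (T := Unit)
    (K := fun _ s t => h (s + t)) (fun _ => hr) ⟨(), s₀, 0, by simpa using hs₀⟩
  set g : ℝ → ℂ := fun τ => Matrix.det (Matrix.of fun i j => h (x i + τ + y j)) with hg
  have hg0 : g 0 ≠ 0 := by
    simpa [hg] using hxy
  have hmul : ∀ τ : ℝ, g τ * g (-τ) = g 0 * g 0 := by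
    intro τ
    have h1 := minors_mul (hrk ()) (fun i => x i + (τ : ℂ)) x (fun j => y j - (τ : ℂ)) y hxy
    have e1 : (Matrix.of fun i j => h (x i + (τ : ℂ) + (y j - (τ : ℂ)))) =
        Matrix.of fun i j => h (x i + ((0 : ℝ) : ℂ) + y j) := by
      ext i j; simp only [Matrix.of_apply]; congr 1; push_cast; ring
    have e2 : (Matrix.of fun i j => h (x i + (y j - (τ : ℂ)))) =
        Matrix.of fun i j => h (x i + ((-τ : ℝ) : ℂ) + y j) := by
      ext i j; simp only [Matrix.of_apply]; congr 1; push_cast; ring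
    have e3 : (Matrix.of fun i j => h (x i + y j)) =
        Matrix.of fun i j => h (x i + ((0 : ℝ) : ℂ) + y j) := by
      ext i j; simp only [Matrix.of_apply]; congr 1; push_cast; ring
    rw [e1, e2, e3] at h1
    simp only [hg]
    rw [h1]
  have hdec : Tendsto g atTop (𝓝 0) := by
    refine tendsto_det_zero hr0 fun i j => ?_
    have := (hd (x i + y j)).mono_left (atTop_le_cocompact)
    refine this.congr fun τ => ?_
    congr 1; ring
  have hdec' : Tendsto (fun τ => g (-τ)) atTop (𝓝 0) := by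
    refine tendsto_det_zero hr0 fun i j => ?_
    have := ((hd (x i + y j)).mono_left (atBot_le_cocompact)).comp tendsto_neg_atTop_atBot
    refine this.congr fun τ => ?_
    simp only [Function.comp]
    congr 1; ring
  have hlim := hdec.mul hdec'
  rw [mul_zero] at hlim
  have hlim2 : Tendsto (fun τ => g τ * g (-τ)) atTop (𝓝 (g 0 * g 0)) := by
    simp only [hmul]; exact tendsto_const_nhds
  have := tendsto_nhds_unique hlim hlim2
  exact hg0 (by simpa using this.symm)

end Pool.Agent.H89
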