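import Mathlib
import Pool.Agent.H89.Det
import Pool.Agent.H89.Liouville

set_option autoImplicit false

namespace Pool.Agent.H89

open Filter Topology Complex

theorem differentiable_det {r : ℕ} {M : ℂ → Fin r → Fin r → ℂ}
    (h : ∀ i j, Differentiable ℂ (fun a => M a i j)) :
    Differentiable ℂ (fun a => Matrix.det (Matrix.of (M a))) := by
  simp only [Matrix.det_apply, Matrix.of_apply]
  refine Differentiable.fun_sum fun σ _ => ?_
  refine Differentiable.fun_const_smul ?_ _
  exact Differentiable.fun_finsetProd fun i _ => h _ _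

/-- Two-variable lemma: an entire function of exponential type of two variables which tends to `0`
on the real plane `t = conj s` (and on all its complex translates) and whose slices in the first
variable have bounded Hankel rank vanishes. -/
theorem hankel_complex {H : ℂ → ℂ → ℂ} {n : ℕ}
    (hs : ∀ t, Differentiable ℂ (fun s => H s t))
    (ht : ∀ s, Differentiable ℂ (fun t => H s t))
    {C R : ℝ} (hC : 0 ≤ C) (hR : 0 ≤ R)
    (hb : ∀ s t, ‖H s t‖ ≤ C * Real.exp (R * (‖s‖ + ‖t‖)))
    (hlim : ∀ a b, Tendsto (fun s => H (s + a) (starRingEnd ℂ s + b)) (cocompact ℂ) (𝓝 0))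
    (hr : ∀ t, RankLE n (fun x y => H (x + y) t)) : ∀ s t, H s t = 0 := by
  by_contra hcon
  push Not at hcon
  obtain ⟨s₀, t₀, hst₀⟩ := hcon
  obtain ⟨r, hr0, hrk, t₁, x, y, hxy⟩ := exists_max_rank (T := ℂ)
    (K := fun t s s' => H (s + s') t) hr ⟨t₀, s₀, 0, by simpa using hst₀⟩
  set G : ℂ → ℂ → ℂ := fun s t => Matrix.det (Matrix.of fun i j => H (s + (x i + y j)) t) with hG
  have hG0 : G 0 t₁ ≠ 0 := by simpa [hG] using hxy
  have hGs : ∀ t, Differentiable ℂ (fun s => G s t) := by
    intro t
    refine differentiable_det fun i j => ?_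
    exact (hs t).comp (differentiable_id.add_const _)
  have hGt : ∀ s, Differentiable ℂ (fun t => G s t) := by
    intro s
    refine differentiable_det fun i j => ?_
    exact ht _
  -- multiplicativity at every base point
  have hmul : ∀ t a s s', G a t ≠ 0 → G (a + s + s') t * G a t = G (a + s) t * G (a + s') t := by
    intro t a s s' ha
    have ha' : Matrix.det (Matrix.of fun i j => H ((x i + a) + y j) t) ≠ 0 := by
      have e0 : (Matrix.of fun i j => H ((x i + a) + y j) t) =
          Matrix.of fun i j => H (a + (x i + y j)) t := by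
        ext i j; simp only [Matrix.of_apply]; congr 1; ring
      rw [e0]; exact ha
    have h1 := minors_mul (hrk t) (fun i => x i + a + s) (fun i => x i + a) (fun j => y j + s') y ha'
    have e1 : (Matrix.of fun i j => H ((x i + a + s) + (y j + s')) t) =
        Matrix.of fun i j => H (a + s + s' + (x i + y j)) t := by
      ext i j; simp only [Matrix.of_apply]; congr 1; ring
    have e2 : (Matrix.of fun i j => H ((x i + a) + y j) t) =
        Matrix.of fun i j => H (a + (x i + y j)) t := by
      ext i j; simp only [Matrix.of_apply]; congr 1; ring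
    have e3 : (Matrix.of fun i j => H ((x i + a + s) + y j) t) =
        Matrix.of fun i j => H (a + s + (x i + y j)) t := by
      ext i j; simp only [Matrix.of_apply]; congr 1; ring
    have e4 : (Matrix.of fun i j => H ((x i + a) + (y j + s')) t) =
        Matrix.of fun i j => H (a + s' + (x i + y j)) t := by
      ext i j; simp only [Matrix.of_apply]; congr 1; ring
    rw [e1, e2, e3, e4] at h1
    exact h1
  have hzero : ∀ t s, G 0 t = 0 → G s t = 0 := by
    intro t s h0
    by_contra hne
    have h1 := hmul t s (-s) s hne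
    have e1 : s + -s + s = s := by ring
    have e2 : s + -s = 0 := by ring
    rw [e1, e2, h0, zero_mul] at h1
    exact hne (mul_self_eq_zero.mp h1)
  -- growth
  obtain ⟨C', R', hC', hR', hGb⟩ : ∃ C' R' : ℝ, 0 ≤ C' ∧ 0 ≤ R' ∧
      ∀ s t, ‖G s t‖ ≤ C' * Real.exp (R' * (‖s‖ + ‖t‖)) := by
    set D : ℝ := ∑ i, ‖x i‖ + ∑ j, ‖y j‖ with hD
    refine ⟨(r.factorial : ℝ) * (C * Real.exp (R * D)) ^ r, R * r, by positivity, by positivity, ?_⟩
    intro s t
    have hent : ∀ i j, ‖H (s + (x i + y j)) t‖ ≤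
        C * Real.exp (R * D) * Real.exp (R * (‖s‖ + ‖t‖)) := by
      intro i j
      refine (hb _ _).trans ?_
      rw [mul_assoc, ← Real.exp_add]
      refine mul_le_mul_of_nonneg_left ?_ hC
      refine Real.exp_le_exp.mpr ?_
      rw [← mul_add]
      refine mul_le_mul_of_nonneg_left ?_ hR
      have h1 : ‖x i‖ ≤ ∑ i, ‖x i‖ :=
        Finset.single_le_sum (f := fun i => ‖x i‖) (fun _ _ => norm_nonneg _) (Finset.mem_univ i)
      have h2 : ‖y j‖ ≤ ∑ j, ‖y j‖ :=
        Finset.single_le_sum (f := fun i => ‖y i‖) (fun _ _ => norm_nonneg _) (Finset.mem_univ j)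
      have h3 : ‖s + (x i + y j)‖ ≤ ‖s‖ + (‖x i‖ + ‖y j‖) :=
        (norm_add_le _ _).trans (add_le_add le_rfl (norm_add_le _ _))
      rw [hD]
      linarith
    have h1 := Matrix.det_le (A := Matrix.of fun i j => H (s + (x i + y j)) t)
      (abv := NormedField.toAbsoluteValue ℂ)
      (x := C * Real.exp (R * D) * Real.exp (R * (‖s‖ + ‖t‖))) (fun i j => hent i j)
    have h2 : ‖G s t‖ ≤ (r.factorial : ℝ) *
        (C * Real.exp (R * D) * Real.exp (R * (‖s‖ + ‖t‖))) ^ r := by
      have : NormedField.toAbsoluteValue ℂ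
          (Matrix.det (Matrix.of fun i j => H (s + (x i + y j)) t)) = ‖G s t‖ := rfl
      rw [this] at h1
      simpa using h1
    refine h2.trans (le_of_eq ?_)
    rw [mul_pow, ← Real.exp_nat_mul, mul_assoc]
    congr 2
    rw [show (r : ℝ) * (R * (‖s‖ + ‖t‖)) = R * r * (‖s‖ + ‖t‖) by ring]
  -- exponential bound relative to `G 0 t`
  have hrel : ∀ s t, ‖G s t‖ ≤ Real.exp (R' * ‖s‖) * ‖G 0 t‖ := by
    intro s t
    by_cases h0 : G 0 t = 0
    · rw [hzero t s h0, h0]; simp
    have hpos : 0 < ‖G 0 t‖ := norm_pos_iff.mpr h0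
    have hpow : ∀ k : ℕ, G ((k : ℂ) * s) t / G 0 t = (G s t / G 0 t) ^ k := by
      intro k
      induction k with
      | zero => simp [h0]
      | succ k ih =>
        have h1 := hmul t 0 ((k : ℂ) * s) s h0
        have e1 : ((k + 1 : ℕ) : ℂ) * s = 0 + (k : ℂ) * s + s := by push_cast; ring
        rw [e1, pow_succ, ← ih]
        field_simp
        have e2 : (0 : ℂ) + (k : ℂ) * s = (k : ℂ) * s := by ring
        have e3 : (0 : ℂ) + s = s := by ring
        rw [e2, e3] at h1
        rw [e2]
        linear_combination h1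
    by_contra hlt
    push Not at hlt
    set ρ : ℝ := ‖G s t‖ / ‖G 0 t‖ / Real.exp (R' * ‖s‖) with hρ
    have hρ1 : 1 < ρ := by
      rw [hρ, lt_div_iff₀ (Real.exp_pos _), one_mul, lt_div_iff₀ hpos]
      exact hlt
    have hbound : ∀ k : ℕ, ρ ^ k ≤ C' * Real.exp (R' * ‖t‖) / ‖G 0 t‖ := by
      intro k
      have h1 : (‖G s t‖ / ‖G 0 t‖) ^ k = ‖G ((k : ℂ) * s) t‖ / ‖G 0 t‖ := by
        rw [← norm_div, ← norm_pow, ← hpow, norm_div]
      rw [hρ, div_pow, h1, div_le_iff₀ (by positivity)]
      rw [← Real.exp_nat_mul]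
      have h2 := hGb ((k : ℂ) * s) t
      rw [norm_mul, Complex.norm_natCast] at h2
      calc ‖G ((k : ℂ) * s) t‖ / ‖G 0 t‖
          ≤ C' * Real.exp (R' * (k * ‖s‖ + ‖t‖)) / ‖G 0 t‖ := by gcongr
        _ = C' * Real.exp (R' * ‖t‖) / ‖G 0 t‖ * Real.exp (k * (R' * ‖s‖)) := by
            rw [show R' * (k * ‖s‖ + ‖t‖) = R' * ‖t‖ + k * (R' * ‖s‖) by ring, Real.exp_add]
            ring
    have htop : Tendsto (fun k : ℕ => ρ ^ k) atTop atTop := tendsto_pow_atTop_atTop_of_one_lt hρ1
    obtain ⟨k, hk⟩ := (htop.eventually (eventually_gt_atTop (C' * Real.exp (R' * ‖t‖) / ‖G 0 t‖))).exists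
    exact absurd (hbound k) (not_le.mpr hk)
  -- separation of variables
  have hsep : ∀ s t, G s t * G 0 t₁ = G s t₁ * G 0 t := by
    intro s t
    obtain ⟨c, hc⟩ := ratio_liouville (hGt s) (hGt 0) (K := Real.exp (R' * ‖s‖)) (fun t => hrel s t)
    rw [hc t, hc t₁]; ring
  -- the final entire function
  set f : ℂ → ℂ := fun t => starRingEnd ℂ (G (starRingEnd ℂ t) t₁) * G 0 (t + t₁) with hf
  have hfd : Differentiable ℂ f := by
    refine Differentiable.mul ?_ ?_
    · intro z
      have h1 : DifferentiableAt ℂ (fun s => G s t₁) (star z) := hGs t₁ (star z)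
      have h2 := h1.star_star
      rw [star_star] at h2
      exact h2
    · exact (hGt 0).comp (differentiable_id.add_const _)
  have hft : Tendsto f (cocompact ℂ) (𝓝 0) := by
    have h1 : Tendsto (fun s => G s (starRingEnd ℂ s + t₁)) (cocompact ℂ) (𝓝 0) := by
      refine tendsto_det_zero hr0 fun i j => ?_
      exact hlim (x i + y j) t₁
    have h2 : Tendsto (fun t : ℂ => starRingEnd ℂ t) (cocompact ℂ) (cocompact ℂ) :=
      (Complex.conjCLE.toHomeomorph.isClosedEmbedding).tendsto_cocompact
    have h3 := h1.comp h2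
    have h4 : Tendsto (fun t => ‖G 0 t₁‖ * ‖G (starRingEnd ℂ t) (starRingEnd ℂ (starRingEnd ℂ t) + t₁)‖)
        (cocompact ℂ) (𝓝 0) := by
      have := (h3.norm).const_mul ‖G 0 t₁‖
      simpa using this
    rw [tendsto_zero_iff_norm_tendsto_zero]
    refine h4.congr fun t => ?_
    rw [← norm_mul, mul_comm, hsep, hf]
    simp only [norm_mul, RCLike.norm_conj, Complex.conj_conj]
  have hf0 := entire_zero_of_tendsto hfd hft 0
  simp only [hf, map_zero, zero_add, mul_eq_zero] at hf0
  rcases hf0 with h1 | h1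
  · exact hG0 (by simpa using h1)
  · exact hG0 h1

end Pool.Agent.H89
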