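import Mathlib
import Pool.Agent.H89.PolyBasic

set_option autoImplicit false

namespace Pool.Agent.H89

open MvPolynomial Filter Topology

/-- `S` stays at bounded distance from the subspace `I`. -/
def SubBdd (S : Set (Fin 3 → ℂ)) (I : Submodule ℂ (Fin 3 → ℂ)) : Prop :=
  ∃ K : ℝ, ∀ u ∈ S, ∃ b ∈ I, ‖u - b‖ ≤ K

theorem additive_entire_linear {f : ℂ → ℂ} (hf : Differentiable ℂ f)
    (hadd : ∀ x y, f (x + y) = f x + f y) : ∀ x, f x = x * f 1 := by
  have h0 : f 0 = 0 := by have := hadd 0 0; simpa using this
  have hder : ∀ x, deriv f x = deriv f 0 := by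
    intro x
    have h1 : HasDerivAt f (deriv f 0) 0 := (hf 0).hasDerivAt
    have h2 : HasDerivAt (fun y => f (y - x)) (deriv f 0) x := by
      have h1' : HasDerivAt f (deriv f 0) (x - x) := by rw [sub_self]; exact h1
      exact HasDerivAt.comp_sub_const x x h1'
    have h3 : HasDerivAt (fun y => f x + f (y - x)) (deriv f 0) x := h2.const_add (f x)
    have h4 : (fun y => f x + f (y - x)) = f := by
      funext y
      rw [← hadd]; congr 1; ring
    rw [h4] at h3
    exact h3.deriv
  have hconst : ∀ x y, f x - x * deriv f 0 = f y - y * deriv f 0 := by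
    apply is_const_of_deriv_eq_zero
    · exact hf.sub (differentiable_id.mul_const _)
    · intro x
      have h1 : HasDerivAt f (deriv f 0) x := by rw [← hder x]; exact (hf x).hasDerivAt
      have h2 : HasDerivAt (fun x => f x - x * deriv f 0) (deriv f 0 - 1 * deriv f 0) x :=
        h1.sub ((hasDerivAt_id x).mul_const (deriv f 0))
      rw [h2.deriv]; ring
  have h1 : f 1 = deriv f 0 := by
    have := hconst 1 0
    rw [h0] at this
    linear_combination this
  intro x
  have := hconst x 0
  rw [h0] at this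
  rw [h1]
  linear_combination this

theorem differentiable_eval_line (h : MvPolynomial (Fin 3) ℂ) (a b : Fin 3 → ℂ) :
    Differentiable ℂ (fun T : ℂ => eval (a + T • b) h) := by
  have : (fun T : ℂ => eval (a + T • b) h) = fun T => (line h a b).eval T := by
    funext T; rw [eval_line]
  rw [this]
  exact Polynomial.differentiable _

theorem continuous_eval' (h : MvPolynomial (Fin 3) ℂ) :
    Continuous (fun z : Fin 3 → ℂ => eval z h) := MvPolynomial.continuous_eval h

/-- If all translates of `h` are bounded on `S` and `I` is a minimal subspace which stays at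
bounded distance from `S`, then `h` is invariant along `I`. -/
theorem inv_of_bounded {S : Set (Fin 3 → ℂ)} {I : Submodule ℂ (Fin 3 → ℂ)}
    (hSI : SubBdd S I)
    (hmin : ∀ I' : Submodule ℂ (Fin 3 → ℂ), SubBdd S I' →
      Module.finrank ℂ I ≤ Module.finrank ℂ I') :
    ∀ (m : ℕ) (h : MvPolynomial (Fin 3) ℂ), h.totalDegree ≤ m →
      (∀ s, ∃ M : ℝ, ∀ u ∈ S, ‖eval (u + s) h‖ ≤ M) →
      ∀ w ∈ I, ∀ v, eval (v + w) h = eval v h := by
  intro m
  induction m with
  | zero =>
    intro h hd _ w _ v
    have h0 : h.totalDegree = 0 := Nat.le_zero.mp hd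
    rw [totalDegree_eq_zero_iff_eq_C.mp h0, eval_C, eval_C]
  | succ m ih =>
    intro h hd hB
    by_cases h0 : h.totalDegree = 0
    · intro w _ v
      rw [totalDegree_eq_zero_iff_eq_C.mp h0, eval_C, eval_C]
    have key : ∀ w ∈ I, ∀ v, eval (v + w) h = eval v h + (eval w h - eval 0 h) := by
      intro w hw v
      have hlt := totalDegree_tr_sub_lt v h (Nat.pos_of_ne_zero h0)
      have h1 := ih (tr v h - h) (by omega) (by
        intro s
        obtain ⟨M₁, hM₁⟩ := hB (s + v)
        obtain ⟨M₂, hM₂⟩ := hB s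
        refine ⟨M₁ + M₂, fun u hu => ?_⟩
        rw [map_sub, eval_tr, add_assoc]
        exact (norm_sub_le _ _).trans (add_le_add (hM₁ u hu) (hM₂ u hu))) w hw 0
      rw [map_sub, map_sub, eval_tr, eval_tr, zero_add, zero_add] at h1
      rw [add_comm v w]
      linear_combination h1
    -- the linear form κ
    have hadd : ∀ w ∈ I, ∀ w' ∈ I, eval (w + w') h - eval 0 h =
        (eval w h - eval 0 h) + (eval w' h - eval 0 h) := by
      intro w hw w' hw'
      have := key w' hw' w
      rw [this]; ring
    have hsmul : ∀ w ∈ I, ∀ c : ℂ, eval (c • w) h - eval 0 h = c * (eval w h - eval 0 h) := by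
      intro w hw c
      have hdf : Differentiable ℂ (fun T : ℂ => eval (T • w) h - eval 0 h) := by
        have := (differentiable_eval_line h 0 w).sub_const (eval 0 h)
        simpa using this
      have := additive_entire_linear hdf (by
        intro x y
        rw [add_smul]
        exact hadd _ (I.smul_mem x hw) _ (I.smul_mem y hw)) c
      simpa using this
    let κ : I →ₗ[ℂ] ℂ :=
      { toFun := fun w => eval (w : Fin 3 → ℂ) h - eval 0 h
        map_add' := fun w w' => by
          simpa using hadd w w.2 w' w'.2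
        map_smul' := fun c w => by
          simpa using hsmul w w.2 c }
    have hκ : ∀ w : I, κ w = eval (w : Fin 3 → ℂ) h - eval 0 h := fun w => rfl
    have hzero : ∀ w : I, κ w = 0 := by
      by_contra hcon
      push Not at hcon
      obtain ⟨w₀, hw₀⟩ := hcon
      set I' : Submodule ℂ (Fin 3 → ℂ) := (LinearMap.ker κ).map I.subtype with hI'
      have hfin : Module.finrank ℂ I' < Module.finrank ℂ I := by
        have h1 : Module.finrank ℂ I' = Module.finrank ℂ (LinearMap.ker κ) :=
          LinearEquiv.finrank_eq (Submodule.equivMapOfInjective I.subtype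
            (Submodule.injective_subtype I) (LinearMap.ker κ)).symm
        rw [h1]
        apply Submodule.finrank_lt
        intro htop
        have : w₀ ∈ LinearMap.ker κ := by rw [htop]; exact Submodule.mem_top
        exact hw₀ (LinearMap.mem_ker.mp this)
      have hsub : SubBdd S I' := by
        obtain ⟨K, hK⟩ := hSI
        obtain ⟨M₀, hM₀⟩ := hB 0
        obtain ⟨M₁, hM₁⟩ : ∃ M₁ : ℝ, ∀ z : Fin 3 → ℂ, ‖z‖ ≤ K → ‖eval z h‖ ≤ M₁ := by
          have hcomp : IsCompact (Metric.closedBall (0 : Fin 3 → ℂ) K) := isCompact_closedBall _ _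
          obtain ⟨M₁, hM₁⟩ := hcomp.exists_bound_of_continuousOn
            (continuous_eval' h).continuousOn
          exact ⟨M₁, fun z hz => hM₁ z (by simpa using hz)⟩
        refine ⟨K + (M₀ + M₁) / ‖κ w₀‖ * ‖(w₀ : Fin 3 → ℂ)‖, fun u hu => ?_⟩
        obtain ⟨b, hb, hub⟩ := hK u hu
        set β : I := ⟨b, hb⟩ with hβ
        refine ⟨b - (κ β / κ w₀) • (w₀ : Fin 3 → ℂ), ?_, ?_⟩
        · rw [hI', Submodule.mem_map]
          refine ⟨β - (κ β / κ w₀) • w₀, ?_, ?_⟩
          · rw [LinearMap.mem_ker, map_sub, map_smul, smul_eq_mul, div_mul_cancel₀ _ hw₀, sub_self]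
          · simp [hβ]
        · have h1 : ‖κ β‖ ≤ M₀ + M₁ := by
            have h2 := key b hb (u - b)
            rw [sub_add_cancel] at h2
            have h3 : κ β = eval u h - eval (u - b) h := by
              rw [hκ]; simp only [hβ]; linear_combination -h2
            rw [h3]
            have h4 := hM₀ u hu
            rw [add_zero] at h4
            exact (norm_sub_le _ _).trans (add_le_add h4 (hM₁ _ hub))
          have h5 : u - (b - (κ β / κ w₀) • (w₀ : Fin 3 → ℂ)) =
              (u - b) + (κ β / κ w₀) • (w₀ : Fin 3 → ℂ) := by abel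
          rw [h5]
          refine (norm_add_le _ _).trans ?_
          rw [norm_smul, norm_div]
          gcongr
      exact absurd (hmin I' hsub) (not_le.mpr hfin)
    intro w hw v
    have h1 := key w hw v
    have h2 := hzero ⟨w, hw⟩
    rw [hκ] at h2
    simp only at h2
    rw [h1, h2, add_zero]

/-- Existence of a minimal subspace at bounded distance. -/
theorem exists_min_sub (S : Set (Fin 3 → ℂ)) :
    ∃ I : Submodule ℂ (Fin 3 → ℂ), SubBdd S I ∧
      ∀ I' : Submodule ℂ (Fin 3 → ℂ), SubBdd S I' →
        Module.finrank ℂ I ≤ Module.finrank ℂ I' := by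
  classical
  have hex : ∃ k : ℕ, ∃ I : Submodule ℂ (Fin 3 → ℂ), SubBdd S I ∧ Module.finrank ℂ I = k :=
    ⟨_, ⊤, ⟨0, fun u _ => ⟨u, Submodule.mem_top, by simp⟩⟩, rfl⟩
  obtain ⟨I, hI, hk⟩ := Nat.find_spec hex
  refine ⟨I, hI, fun I' hI' => ?_⟩
  rw [hk]
  exact Nat.find_min' hex ⟨I', hI', rfl⟩

end Pool.Agent.H89
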