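import Mathlib
import Pool.Agent.H89.PolyBasic
import Pool.Agent.H89.Hurwitz

set_option autoImplicit false

namespace Pool.Agent.H89

open MvPolynomial Filter Topology

theorem differentiable_coeff_line (p : MvPolynomial (Fin 3) ℂ) (b : Fin 3 → ℂ) (k : ℕ) :
    Differentiable ℂ (fun a : Fin 3 → ℂ => (line p a b).coeff k) := by
  revert k
  refine MvPolynomial.induction_on (motive := fun p => ∀ k : ℕ,
    Differentiable ℂ (fun a : Fin 3 → ℂ => (line p a b).coeff k)) p ?_ ?_ ?_
  · intro c k
    have : ∀ a, line (C c) a b = Polynomial.C c := by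
      intro a; unfold line; simp
    simp only [this]
    exact differentiable_const _
  · intro p q hp hq k
    have : ∀ a, line (p + q) a b = line p a b + line q a b := fun a => line_add p q a b
    simp only [this, Polynomial.coeff_add]
    exact (hp k).add (hq k)
  · intro p i hp k
    have hi : Differentiable ℂ (fun a : Fin 3 → ℂ => a i) :=
      (ContinuousLinearMap.proj (R := ℂ) (φ := fun _ : Fin 3 => ℂ) i).differentiable
    have : ∀ a, line (p * X i) a b =
        line p a b * Polynomial.C (a i) + line p a b * Polynomial.C (b i) * Polynomial.X := by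
      intro a; unfold line; rw [map_mul, aeval_X, mul_add, mul_assoc]
    simp only [this, Polynomial.coeff_add]
    refine Differentiable.add ?_ ?_
    · simp only [Polynomial.coeff_mul_C]
      exact (hp k).mul hi
    · rcases k with _ | k
      · simp only [Polynomial.mul_coeff_zero, Polynomial.coeff_X_zero, mul_zero]
        exact differentiable_const _
      · simp only [Polynomial.coeff_mul_X, Polynomial.coeff_mul_C]
        exact (hp k).mul (differentiable_const _)

theorem differentiable_prod' {P ι : Type*} [NormedAddCommGroup P] [NormedSpace ℂ P]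
    (s : Finset ι) {f : ι → P → ℂ} (hf : ∀ i, Differentiable ℂ (f i)) :
    Differentiable ℂ (fun w => ∏ i ∈ s, f i w) := by
  classical
  induction s using Finset.induction_on with
  | empty => simp only [Finset.prod_empty]; exact differentiable_const _
  | insert i s hi ih =>
    simp only [Finset.prod_insert hi]
    exact (hf i).mul ih

theorem differentiable_resultant {P : Type*} [NormedAddCommGroup P] [NormedSpace ℂ P]
    {f g : P → Polynomial ℂ} (hf : ∀ k, Differentiable ℂ (fun w => (f w).coeff k))
    (hg : ∀ k, Differentiable ℂ (fun w => (g w).coeff k)) (m n : ℕ) :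
    Differentiable ℂ (fun w => Polynomial.resultant (f w) (g w) m n) := by
  have hentry : ∀ i j, Differentiable ℂ (fun w => Polynomial.sylvester (f w) (g w) m n i j) := by
    intro i j
    unfold Polynomial.sylvester
    simp only [Matrix.of_apply]
    induction j using Fin.addCases with
    | left j =>
      simp only [Fin.addCases_left]
      split_ifs
      · exact hg _
      · exact differentiable_const _
    | right j =>
      simp only [Fin.addCases_right]
      split_ifs
      · exact hf _
      · exact differentiable_const _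
  unfold Polynomial.resultant
  simp only [Matrix.det_apply]
  refine Differentiable.fun_sum fun σ _ => ?_
  refine Differentiable.fun_const_smul ?_ _
  exact differentiable_prod' _ fun i => hentry _ _

/-- Common roots on a line through the resultant. -/
theorem resultant_line_eq_zero_iff {p q : MvPolynomial (Fin 3) ℂ} {b : Fin 3 → ℂ}
    (hb : eval b (homogeneousComponent p.totalDegree p) ≠ 0) (a a' : Fin 3 → ℂ) :
    Polynomial.resultant (line p a b) (line q a' b) p.totalDegree q.totalDegree = 0 ↔
      ∃ T : ℂ, eval (a + T • b) p = 0 ∧ eval (a' + T • b) q = 0 := by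
  have hc : (line p a b).coeff p.totalDegree ≠ 0 := by
    rw [coeff_line_top p le_rfl a b]; exact hb
  have hdeg : (line p a b).natDegree = p.totalDegree :=
    le_antisymm (natDegree_line_le p a b) (Polynomial.le_natDegree_of_ne_zero hc)
  have hne : line p a b ≠ 0 := by
    intro h; rw [h, Polynomial.coeff_zero] at hc; exact hc rfl
  have h1 := Polynomial.resultant_eq_prod_eval (line p a b) (line q a' b) q.totalDegree
    (natDegree_line_le q a' b) (IsAlgClosed.splits _)
  rw [hdeg] at h1
  rw [h1]
  have hlc : (line p a b).leadingCoeff ≠ 0 := Polynomial.leadingCoeff_ne_zero.mpr hne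
  rw [mul_eq_zero]
  constructor
  · rintro (h | h)
    · exact absurd h (pow_ne_zero _ hlc)
    · rw [Multiset.prod_eq_zero_iff, Multiset.mem_map] at h
      obtain ⟨T, hT, hT'⟩ := h
      refine ⟨T, ?_, ?_⟩
      · have := Polynomial.isRoot_of_mem_roots hT
        rw [Polynomial.IsRoot.def, eval_line] at this
        exact this
      · rw [eval_line] at hT'; exact hT'
  · rintro ⟨T, hT, hT'⟩
    right
    rw [Multiset.prod_eq_zero_iff, Multiset.mem_map]
    refine ⟨T, ?_, ?_⟩
    · rw [Polynomial.mem_roots hne, Polynomial.IsRoot.def, eval_line]; exact hT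
    · rw [eval_line]; exact hT'

/-- Openness lemma for common zeros of two polynomials. -/
theorem open_common_zero {p q : MvPolynomial (Fin 3) ℂ} {b c : Fin 3 → ℂ}
    (hb : eval b (homogeneousComponent p.totalDegree p) ≠ 0) {a₀ a₀' : Fin 3 → ℂ}
    (hp : eval a₀ p = 0) (hq : eval a₀' q = 0)
    (hne : ∃ x : ℂ, ∀ T : ℂ,
      ¬ (eval (a₀ + x • c + T • b) p = 0 ∧ eval (a₀' + x • c + T • b) q = 0)) :
    ∀ᶠ w : (Fin 3 → ℂ) × (Fin 3 → ℂ) in 𝓝 (a₀, a₀'), ∃ x T : ℂ,
      eval (w.1 + x • c + T • b) p = 0 ∧ eval (w.2 + x • c + T • b) q = 0 := by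
  set Φ : (Fin 3 → ℂ) × (Fin 3 → ℂ) → ℂ → ℂ := fun w x =>
    Polynomial.resultant (line p (w.1 + x • c) b) (line q (w.2 + x • c) b)
      p.totalDegree q.totalDegree with hΦ
  have hdiff : Differentiable ℂ (fun y : ((Fin 3 → ℂ) × (Fin 3 → ℂ)) × ℂ => Φ y.1 y.2) := by
    refine differentiable_resultant (fun k => ?_) (fun k => ?_) _ _
    · refine (differentiable_coeff_line p b k).comp ?_
      fun_prop
    · refine (differentiable_coeff_line q b k).comp ?_
      fun_prop
  have hd : ∀ w, Differentiable ℂ (Φ w) := by
    intro w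
    have : Φ w = (fun y : ((Fin 3 → ℂ) × (Fin 3 → ℂ)) × ℂ => Φ y.1 y.2) ∘ (fun x => (w, x)) := rfl
    rw [this]
    refine hdiff.comp ?_
    fun_prop
  have h0 : Φ (a₀, a₀') 0 = 0 := by
    simp only [hΦ]
    rw [resultant_line_eq_zero_iff hb]
    exact ⟨0, by simpa using hp, by simpa using hq⟩
  have hne' : ∃ x, Φ (a₀, a₀') x ≠ 0 := by
    obtain ⟨x, hx⟩ := hne
    refine ⟨x, fun h => ?_⟩
    simp only [hΦ] at h
    rw [resultant_line_eq_zero_iff hb] at h
    obtain ⟨T, hT⟩ := h
    exact hx T hT
  have := hurwitz hdiff.continuous hd h0 hne' one_pos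
  filter_upwards [this] with w hw
  obtain ⟨x, -, hx⟩ := hw
  simp only [hΦ] at hx
  rw [resultant_line_eq_zero_iff hb] at hx
  obtain ⟨T, hT⟩ := hx
  exact ⟨x, T, hT⟩

end Pool.Agent.H89
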