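import Mathlib
import Pool.Agent.H89.Det
import Pool.Agent.H89.Liouville
import Pool.Agent.H89.Hankel
import Pool.Agent.H89.PolyBasic
import Pool.Agent.H89.Res
import Pool.Agent.H89.Inv
import Pool.Agent.H89.Degen

set_option autoImplicit false

namespace Pool.Agent.H89

open MvPolynomial Filter Topology

/-- Embedding of real vectors. -/
def ofR (x : Fin 3 → ℝ) : Fin 3 → ℂ := fun i => (x i : ℂ)

/-- The properties of Fourier transforms of compactly supported integrable functions used below. -/
structure Nice (F : (Fin 3 → ℂ) → ℂ) : Prop where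
  cont : Continuous F
  ent : ∀ z w : Fin 3 → ℂ, Differentiable ℂ (fun T : ℂ => F (z + T • w))
  bd : ∃ C R : ℝ, 0 ≤ C ∧ 0 ≤ R ∧ ∀ z, ‖F z‖ ≤ C * Real.exp (R * ‖z‖)
  rl : ∀ w : Fin 3 → ℂ, Tendsto (fun x : Fin 3 → ℝ => F (w + ofR x)) (cocompact _) (𝓝 0)

theorem Nice.translate {F : (Fin 3 → ℂ) → ℂ} (hF : Nice F) (z₀ : Fin 3 → ℂ) :
    Nice (fun z => F (z₀ + z)) := by
  refine ⟨hF.cont.comp (continuous_const.add continuous_id), ?_, ?_, ?_⟩
  · intro z w
    have := hF.ent (z₀ + z) w
    simpa only [add_assoc] using this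
  · obtain ⟨C, R, hC, hR, h⟩ := hF.bd
    refine ⟨C * Real.exp (R * ‖z₀‖), R, by positivity, hR, fun z => ?_⟩
    refine (h _).trans ?_
    rw [mul_assoc, ← Real.exp_add, ← mul_add]
    gcongr
    exact norm_add_le _ _
  · intro w
    refine (hF.rl (z₀ + w)).congr fun x => ?_
    rw [add_assoc]

theorem tendsto_linear_cocompact {V W : Type*} [NormedAddCommGroup V] [NormedSpace ℝ V]
    [FiniteDimensional ℝ V] [NormedAddCommGroup W] [NormedSpace ℝ W] [FiniteDimensional ℝ W]
    (f : V →ₗ[ℝ] W) (hf : Function.Injective f) : Tendsto f (cocompact V) (cocompact W) := by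
  have := LinearMap.isClosedEmbedding_of_injective (f := f) (LinearMap.ker_eq_bot.mpr hf)
  exact this.tendsto_cocompact

theorem homogeneousComponent_totalDegree_ne_zero {p : MvPolynomial (Fin 3) ℂ}
    (hp : 0 < p.totalDegree) : homogeneousComponent p.totalDegree p ≠ 0 := by
  intro h
  have : p.totalDegree < p.totalDegree := by
    refine totalDegree_lt_of_coeff hp fun β hβ => ?_
    rcases hβ.lt_or_eq with h1 | h1
    · exact coeff_eq_zero_of_degree h1
    · have h2 := congrArg (coeff β) h
      rw [coeff_homogeneousComponent, if_pos h1.symm, coeff_zero] at h2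
      exact h2
  exact lt_irrefl _ this

theorem eq_zero_of_near_zero {f : ℂ → ℂ} (hf : Differentiable ℂ f) (h : ∀ᶠ T in 𝓝 (0 : ℂ), f T = 0) :
    ∀ T, f T = 0 := by
  intro T
  have hBan : AnalyticOnNhd ℂ f Set.univ := fun z _ => hf.analyticAt z
  exact hBan.eqOn_zero_of_preconnected_of_eventuallyEq_zero isPreconnected_univ
    (Set.mem_univ 0) h (Set.mem_univ T)

/-- The core result: for a good pair the function vanishes at the origin. -/
theorem vanish_zero {F : (Fin 3 → ℂ) → ℂ} (hF : Nice F) {n : ℕ}
    {p₀ q₀ : MvPolynomial (Fin 3) ℂ} (hg₀ : GoodPair F n p₀ q₀) : F 0 = 0 := by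
  obtain ⟨p, q, hg, hBp, hBq⟩ := exists_min_good hF.cont hg₀
  obtain ⟨hp, hq, hp0, hq0, hrank⟩ := hg
  set S : Set (Fin 3 → ℂ) := {u | eval u p = 0 ∧ eval u q = 0} with hS
  obtain ⟨I, hSI, hmin⟩ := exists_min_sub S
  have hip := inv_of_bounded hSI hmin p.totalDegree p le_rfl hBp
  have hiq := inv_of_bounded hSI hmin q.totalDegree q le_rfl hBq
  obtain ⟨K, hK⟩ := hSI
  by_cases hreal : ∃ x : Fin 3 → ℝ, x ≠ 0 ∧ ofR x ∈ I
  · -- a real direction
    obtain ⟨x, hx, hxI⟩ := hreal
    have hr : RankLE n (fun s t : ℂ => F ((s + t) • ofR x)) := by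
      intro s t
      have h1 := hrank (fun i => s i • ofR x) (fun j => -(t j • ofR x)) (fun i => by
          have := hip (s i • ofR x) (I.smul_mem _ hxI) 0
          rw [zero_add] at this
          rw [this, hp0]) (fun j => by
          have := hiq (-(t j • ofR x)) (I.neg_mem (I.smul_mem _ hxI)) 0
          rw [zero_add] at this
          rw [this, hq0])
      have h2 : (Matrix.of fun i j => F (s i • ofR x - -(t j • ofR x))) =
          (fun i j => F ((s i + t j) • ofR x)) := by
        ext i j; simp only [Matrix.of_apply]; congr 1; rw [add_smul]; abel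
      rw [h2] at h1
      exact h1
    have hd : ∀ w : ℂ, Tendsto (fun τ : ℝ => F ((w + (τ : ℂ)) • ofR x)) (cocompact ℝ) (𝓝 0) := by
      intro w
      have h1 : Tendsto (fun τ : ℝ => τ • x) (cocompact ℝ) (cocompact (Fin 3 → ℝ)) := by
        have := tendsto_linear_cocompact (LinearMap.toSpanSingleton ℝ (Fin 3 → ℝ) x) (by
          intro a b hab
          simp only [LinearMap.toSpanSingleton_apply] at hab
          exact smul_left_injective ℝ hx hab)
        simpa using! this
      refine ((hF.rl (w • ofR x)).comp h1).congr fun τ => ?_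
      simp only [Function.comp]
      congr 1
      rw [add_smul]
      congr 1
      funext i
      simp [ofR]
    have h0 := hankel_real (h := fun s => F (s • ofR x)) hr hd 0
    simpa using h0
  -- no real direction
  have hdim : Module.finrank ℂ I ≤ 1 := by
    by_contra hcon
    push Not at hcon
    apply hreal
    let ι : (Fin 3 → ℝ) →ₗ[ℝ] (Fin 3 → ℂ) :=
      { toFun := ofR
        map_add' := fun a b => by funext i; simp [ofR]
        map_smul' := fun c a => by funext i; simp [ofR] }
    let f : (Fin 3 → ℝ) →ₗ[ℝ] ((Fin 3 → ℂ) ⧸ I) := (I.mkQ.restrictScalars ℝ).comp ι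
    have hfin : Module.finrank ℝ ((Fin 3 → ℂ) ⧸ I) < Module.finrank ℝ (Fin 3 → ℝ) := by
      rw [finrank_real_of_complex]
      have h1 := Submodule.finrank_quotient_add_finrank I
      rw [Module.finrank_fin_fun] at h1
      rw [Module.finrank_fin_fun]
      omega
    have hker := LinearMap.ker_ne_bot_of_finrank_lt (f := f) hfin
    obtain ⟨x, hx, hx0⟩ := Submodule.exists_mem_ne_zero_of_ne_bot hker
    refine ⟨x, hx0, ?_⟩
    rw [LinearMap.mem_ker] at hx
    have : I.mkQ (ofR x) = 0 := hx
    rwa [Submodule.mkQ_apply, Submodule.Quotient.mk_eq_zero] at this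
  -- a non-characteristic direction
  have hdpos : 0 < p.totalDegree := totalDegree_pos hp hp0
  obtain ⟨b, hb⟩ : ∃ b : Fin 3 → ℂ, eval b (homogeneousComponent p.totalDegree p) ≠ 0 := by
    by_contra hcon
    push Not at hcon
    exact homogeneousComponent_totalDegree_ne_zero hdpos
      (MvPolynomial.funext fun z => by rw [hcon z, map_zero])
  -- compactness data
  have hScl : IsClosed S := by
    have h1 : IsClosed {u : Fin 3 → ℂ | eval u p = 0} :=
      isClosed_eq (continuous_eval' p) continuous_const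
    have h2 : IsClosed {u : Fin 3 → ℂ | eval u q = 0} :=
      isClosed_eq (continuous_eval' q) continuous_const
    exact h1.inter h2
  rcases Nat.lt_or_ge (Module.finrank ℂ I) 1 with hz | hz
  · -- `I = 0`: the set of common zeros would be compact, impossible
    exfalso
    have hI0 : I = ⊥ := by
      rw [← Submodule.finrank_eq_zero]; omega
    have hSb : ∀ u ∈ S, ‖u‖ ≤ K := by
      intro u hu
      obtain ⟨b', hb', hub⟩ := hK u hu
      rw [hI0, Submodule.mem_bot] at hb'
      rwa [hb', sub_zero] at hub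
    have hScomp : IsCompact S := by
      refine (isCompact_closedBall (0 : Fin 3 → ℂ) K).of_isClosed_subset hScl ?_
      intro u hu
      simpa using hSb u hu
    have hSne : S.Nonempty := ⟨0, hp0, hq0⟩
    obtain ⟨ℓc, hℓc0, hℓcb⟩ := Submodule.exists_le_ker_of_lt_top
      (Submodule.span ℂ ({b} : Set (Fin 3 → ℂ))) (by
        rw [lt_top_iff_ne_top]
        intro htop
        have h1 := finrank_span_le_card (R := ℂ) ({b} : Set (Fin 3 → ℂ))
        rw [htop] at h1
        simp at h1)
    obtain ⟨c, hc⟩ : ∃ c, ℓc c = 1 := by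
      obtain ⟨y, hy⟩ : ∃ y, ℓc y ≠ 0 := by
        by_contra hcon
        push Not at hcon
        exact hℓc0 (LinearMap.ext hcon)
      exact ⟨(ℓc y)⁻¹ • y, by rw [map_smul, smul_eq_mul, inv_mul_cancel₀ hy]⟩
    have hℓcb' : ℓc b = 0 := hℓcb (Submodule.mem_span_singleton_self b)
    obtain ⟨ℓ, hℓ0, hℓbc⟩ := Submodule.exists_le_ker_of_lt_top
      (Submodule.span ℂ ({b, c} : Set (Fin 3 → ℂ))) (by
        rw [lt_top_iff_ne_top]
        intro htop
        have h1 := finrank_span_le_card (R := ℂ) ({b, c} : Set (Fin 3 → ℂ))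
        rw [htop] at h1
        have h2 : (({b, c} : Set (Fin 3 → ℂ)).toFinset).card ≤ 2 := by
          rw [Set.toFinset_insert, Set.toFinset_singleton]
          exact Finset.card_le_two
        rw [finrank_top, Module.finrank_fin_fun] at h1
        omega)
    obtain ⟨e, he⟩ : ∃ e, ℓ e = 1 := by
      obtain ⟨y, hy⟩ : ∃ y, ℓ y ≠ 0 := by
        by_contra hcon
        push Not at hcon
        exact hℓ0 (LinearMap.ext hcon)
      exact ⟨(ℓ y)⁻¹ • y, by rw [map_smul, smul_eq_mul, inv_mul_cancel₀ hy]⟩
    have hℓb : ℓ b = 0 := hℓbc (Submodule.subset_span (by simp))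
    have hℓc' : ℓ c = 0 := hℓbc (Submodule.subset_span (by simp))
    have hℓcont : Continuous ℓ := LinearMap.continuous_of_finiteDimensional ℓ
    obtain ⟨u₀, hu₀, hmax⟩ := hScomp.exists_isMaxOn hSne
      ((Complex.continuous_re.comp hℓcont).continuousOn)
    have hne : ∃ x : ℂ, ∀ T : ℂ,
        ¬ (eval (u₀ + x • c + T • b) p = 0 ∧ eval (u₀ + x • c + T • b) q = 0) := by
      by_contra hcon
      push Not at hcon
      have hcc : Continuous ℓc := LinearMap.continuous_of_finiteDimensional ℓc
      obtain ⟨M, hM⟩ := (isCompact_closedBall (0 : Fin 3 → ℂ) K).exists_bound_of_continuousOn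
        hcc.continuousOn
      obtain ⟨T, hT⟩ := hcon ((M + ‖ℓc u₀‖ + 1 : ℝ) : ℂ)
      have h1 := hM _ (mem_closedBall_zero_iff.mpr (hSb _ hT))
      rw [map_add, map_add, map_smul, map_smul, hc, hℓcb', smul_eq_mul, mul_one, smul_zero,
        add_zero] at h1
      have h2 : M + ‖ℓc u₀‖ + 1 ≤ ‖ℓc u₀ + ((M + ‖ℓc u₀‖ + 1 : ℝ) : ℂ)‖ + ‖ℓc u₀‖ := by
        have h3 : ‖((M + ‖ℓc u₀‖ + 1 : ℝ) : ℂ)‖ ≤
            ‖ℓc u₀ + ((M + ‖ℓc u₀‖ + 1 : ℝ) : ℂ)‖ + ‖ℓc u₀‖ := by
          have h4 := norm_sub_le (ℓc u₀ + ((M + ‖ℓc u₀‖ + 1 : ℝ) : ℂ)) (ℓc u₀)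
          rwa [add_sub_cancel_left] at h4
        refine le_trans ?_ h3
        rw [Complex.norm_real]
        exact le_abs_self _
      linarith
    have hev := open_common_zero hb hu₀.1 hu₀.2 hne
    have hpath : Tendsto (fun y : ℝ => (u₀ + (y : ℂ) • e, u₀ + (y : ℂ) • e)) (𝓝[>] 0)
        (𝓝 (u₀, u₀)) := by
      have hc1 : Continuous (fun y : ℝ => (u₀ + (y : ℂ) • e, u₀ + (y : ℂ) • e)) := by fun_prop
      have := (hc1.tendsto 0).mono_left (nhdsWithin_le_nhds (s := Set.Ioi 0))
      simpa using this
    obtain ⟨y, hy, hypos⟩ := ((hpath.eventually hev).and self_mem_nhdsWithin).exists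
    obtain ⟨x, T, h1, h2⟩ := hy
    have h3 := hmax (⟨h1, h2⟩ : _ ∈ S)
    have h4 : (Complex.re ∘ ℓ) (u₀ + (y : ℂ) • e + x • c + T • b) ≤ (Complex.re ∘ ℓ) u₀ := h3
    simp only [Function.comp, map_add, map_smul, he, hℓb, hℓc', smul_eq_mul, mul_one, mul_zero,
      add_zero, Complex.add_re, Complex.ofReal_re] at h4
    have : (0 : ℝ) < y := hypos
    linarith
  · -- `I` is a line
    have h1 : Module.finrank ℂ I = 1 := le_antisymm hdim hz
    obtain ⟨ω', hω'0, hω'⟩ := finrank_eq_one_iff'.mp h1
    set ω : Fin 3 → ℂ := (ω' : Fin 3 → ℂ) with hω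
    have hωI : ω ∈ I := ω'.2
    have hω0 : ω ≠ 0 := by
      intro h; apply hω'0; exact Subtype.ext h
    have hIspan : ∀ b' ∈ I, ∃ s : ℂ, b' = s • ω := by
      intro b' hb'
      obtain ⟨s, hs⟩ := hω' ⟨b', hb'⟩
      exact ⟨s, by rw [hω, ← Submodule.coe_smul, hs]⟩
    obtain ⟨ℓ, hℓ0, hℓbω⟩ := Submodule.exists_le_ker_of_lt_top
      (Submodule.span ℂ ({b, ω} : Set (Fin 3 → ℂ))) (by
        rw [lt_top_iff_ne_top]
        intro htop
        have h1 := finrank_span_le_card (R := ℂ) ({b, ω} : Set (Fin 3 → ℂ))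
        rw [htop] at h1
        have h2 : (({b, ω} : Set (Fin 3 → ℂ)).toFinset).card ≤ 2 := by
          rw [Set.toFinset_insert, Set.toFinset_singleton]
          exact Finset.card_le_two
        rw [finrank_top, Module.finrank_fin_fun] at h1
        omega)
    obtain ⟨c, hc⟩ : ∃ c, ℓ c = 1 := by
      obtain ⟨y, hy⟩ : ∃ y, ℓ y ≠ 0 := by
        by_contra hcon
        push Not at hcon
        exact hℓ0 (LinearMap.ext hcon)
      exact ⟨(ℓ y)⁻¹ • y, by rw [map_smul, smul_eq_mul, inv_mul_cancel₀ hy]⟩
    have hℓb : ℓ b = 0 := hℓbω (Submodule.subset_span (by simp))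
    have hℓω : ℓ ω = 0 := hℓbω (Submodule.subset_span (by simp))
    have hne : ∃ x : ℂ, ∀ T : ℂ,
        ¬ (eval ((0 : Fin 3 → ℂ) + x • c + T • b) p = 0 ∧
          eval ((0 : Fin 3 → ℂ) + x • c + T • b) q = 0) := by
      by_contra hcon
      push Not at hcon
      have hcc : Continuous ℓ := LinearMap.continuous_of_finiteDimensional ℓ
      obtain ⟨M, hM⟩ := (isCompact_closedBall (0 : Fin 3 → ℂ) K).exists_bound_of_continuousOn
        hcc.continuousOn
      obtain ⟨T, hT⟩ := hcon ((M + 1 : ℝ) : ℂ)
      obtain ⟨b', hb', hub⟩ := hK _ hT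
      obtain ⟨s, rfl⟩ := hIspan b' hb'
      have h1 := hM _ (mem_closedBall_zero_iff.mpr hub)
      rw [map_sub, map_add, map_add, map_smul, map_smul, map_smul, hc, hℓb, hℓω, map_zero,
        smul_eq_mul, mul_one, smul_zero, smul_zero, zero_add, add_zero, sub_zero,
        Complex.norm_real] at h1
      have h2 := le_abs_self (M + 1)
      rw [Real.norm_eq_abs] at h1
      linarith
    have hev := open_common_zero hb hp0 hq0 hne
    have hloc : ∀ᶠ ζ in 𝓝 (0 : Fin 3 → ℂ), ∃ u v : Fin 3 → ℂ, eval u p = 0 ∧ eval v q = 0 ∧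
        u - v = ζ := by
      have hpath : Tendsto (fun ζ : Fin 3 → ℂ => (ζ, (0 : Fin 3 → ℂ))) (𝓝 0)
          (𝓝 ((0 : Fin 3 → ℂ), (0 : Fin 3 → ℂ))) := by
        have hc1 : Continuous (fun ζ : Fin 3 → ℂ => (ζ, (0 : Fin 3 → ℂ))) := by fun_prop
        exact hc1.tendsto 0
      filter_upwards [hpath.eventually hev] with ζ hζ
      obtain ⟨x, T, h1, h2⟩ := hζ
      exact ⟨_, _, h1, h2, by abel⟩
    have hlocr : ∀ᶠ ζ in 𝓝 (0 : Fin 3 → ℂ), ∀ s t : Fin (n + 1) → ℂ,
        Matrix.det (Matrix.of fun i j => F (ζ + (s i + t j) • ω)) = 0 := by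
      filter_upwards [hloc] with ζ hζ s t
      obtain ⟨u, v, hu, hv, huv⟩ := hζ
      have h1 := hrank (fun i => u + s i • ω) (fun j => v + -(t j • ω)) (fun i => by
          rw [hip (s i • ω) (I.smul_mem _ hωI) u, hu]) (fun j => by
          rw [hiq (-(t j • ω)) (I.neg_mem (I.smul_mem _ hωI)) v, hv])
      have h2 : (Matrix.of fun i j => F (u + s i • ω - (v + -(t j • ω)))) =
          (Matrix.of fun i j => F (ζ + (s i + t j) • ω)) := by
        ext i j; simp only [Matrix.of_apply]; congr 1; rw [add_smul, ← huv]; abel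
      rw [h2] at h1
      exact h1
    have hglob : ∀ (ζ : Fin 3 → ℂ) (s t : Fin (n + 1) → ℂ),
        Matrix.det (Matrix.of fun i j => F (ζ + (s i + t j) • ω)) = 0 := by
      intro ζ s t
      have hdf : Differentiable ℂ
          (fun T : ℂ => Matrix.det (Matrix.of fun i j => F (T • ζ + (s i + t j) • ω))) := by
        refine differentiable_det fun i j => ?_
        have h5 := hF.ent ((s i + t j) • ω) ζ
        simpa only [add_comm] using h5
      have hnear : ∀ᶠ T in 𝓝 (0 : ℂ),
          Matrix.det (Matrix.of fun i j => F (T • ζ + (s i + t j) • ω)) = 0 := by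
        have hpath : Tendsto (fun T : ℂ => T • ζ) (𝓝 0) (𝓝 (0 : Fin 3 → ℂ)) := by
          have hc1 : Continuous (fun T : ℂ => T • ζ) := by fun_prop
          have := hc1.tendsto 0
          simpa using this
        filter_upwards [hpath.eventually hlocr] with T hT
        exact hT s t
      have := eq_zero_of_near_zero hdf hnear 1
      simpa using this
    set ωb : Fin 3 → ℂ := fun i => starRingEnd ℂ (ω i) with hωb
    obtain ⟨C, R, hC, hR, hbd⟩ := hF.bd
    have hfin := hankel_complex (H := fun s t => F (s • ω + t • ωb)) (n := n) (C := C)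
      (R := R * ‖ω‖) ?_ ?_ hC (by positivity) ?_ ?_ ?_ 0 0
    · simpa using hfin
    · intro t
      have h5 := hF.ent (t • ωb) ω
      simpa only [add_comm] using h5
    · intro s
      exact hF.ent (s • ω) ωb
    · intro s t
      refine (hbd _).trans ?_
      have hωbn : ‖ωb‖ ≤ ‖ω‖ := by
        rw [pi_norm_le_iff_of_nonneg (norm_nonneg _)]
        intro i
        simp only [hωb, RCLike.norm_conj]
        exact norm_le_pi_norm ω i
      have h1 : ‖s • ω + t • ωb‖ ≤ ‖ω‖ * (‖s‖ + ‖t‖) := by
        refine (norm_add_le _ _).trans ?_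
        rw [norm_smul, norm_smul]
        nlinarith [mul_le_mul_of_nonneg_left hωbn (norm_nonneg t)]
      have h2 : R * ‖s • ω + t • ωb‖ ≤ R * ‖ω‖ * (‖s‖ + ‖t‖) := by
        rw [mul_assoc]
        exact mul_le_mul_of_nonneg_left h1 hR
      exact mul_le_mul_of_nonneg_left (Real.exp_le_exp.mpr h2) hC
    · intro a b'
      let f : ℂ →ₗ[ℝ] (Fin 3 → ℝ) :=
        { toFun := fun s i => 2 * (s * ω i).re
          map_add' := fun x y => by
            funext i; simp only [add_mul, Complex.add_re, mul_add, Pi.add_apply]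
          map_smul' := fun c x => by
            funext i
            simp only [Complex.real_smul, RingHom.id_apply, Pi.smul_apply, smul_eq_mul, mul_assoc,
              Complex.re_ofReal_mul]
            ring }
      have hinj : Function.Injective f := by
        rw [← LinearMap.ker_eq_bot, LinearMap.ker_eq_bot']
        intro s hs
        by_contra hs0
        apply hreal
        refine ⟨fun i => (s * ω i).im, ?_, ?_⟩
        · intro h0
          apply hω0
          funext i
          have h1 : (s * ω i).re = 0 := by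
            have := congrFun hs i
            have h2 : 2 * (s * ω i).re = 0 := this
            linarith
          have h2 : (s * ω i).im = 0 := congrFun h0 i
          have h3 : s * ω i = 0 := Complex.ext h1 h2
          exact (mul_eq_zero.mp h3).resolve_left hs0
        · have h4 : ofR (fun i => (s * ω i).im) = (-(Complex.I) * s) • ω := by
            funext i
            have h1 : (s * ω i).re = 0 := by
              have := congrFun hs i
              have h2 : 2 * (s * ω i).re = 0 := this
              linarith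
            have h5 : s * ω i = ((s * ω i).im : ℂ) * Complex.I := by
              conv_lhs => rw [← Complex.re_add_im (s * ω i), h1]
              simp
            simp only [ofR, Pi.smul_apply, smul_eq_mul]
            rw [mul_assoc, h5]
            simp only [Complex.mul_im, Complex.ofReal_re, Complex.I_im, mul_one, Complex.ofReal_im,
              Complex.I_re, mul_zero, add_zero]
            ring_nf
            rw [Complex.I_sq]
            ring
          rw [h4]
          exact I.smul_mem _ hωI
      have h1 := tendsto_linear_cocompact f hinj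
      refine ((hF.rl (a • ω + b' • ωb)).comp h1).congr fun s => ?_
      simp only [Function.comp]
      congr 1
      rw [add_smul, add_smul]
      have h6 : ofR (f s) = s • ω + starRingEnd ℂ s • ωb := by
        funext i
        simp only [ofR, Pi.add_apply, Pi.smul_apply, smul_eq_mul, hωb]
        have h7 : (f s) i = 2 * (s * ω i).re := rfl
        rw [h7, ← map_mul]
        exact (Complex.add_conj (s * ω i)).symm
      rw [h6]
      abel
    · intro t x y
      have h1 := hglob (t • ωb) x y
      have h2 : (Matrix.of fun i j => F (t • ωb + (x i + y j) • ω)) =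
          (fun i j => F ((x i + y j) • ω + t • ωb)) := by
        ext i j; simp only [Matrix.of_apply]; rw [add_comm]
      rw [h2] at h1
      exact h1

end Pool.Agent.H89
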