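import Mathlib
import Pool.Agent.H89.Vanish

set_option autoImplicit false

namespace Pool.Agent.H89

open Filter Topology MeasureTheory

/-- The Fourier-Laplace transform of `f` with respect to `μ`. -/
noncomputable def FL (μ : Measure (Fin 3 → ℝ)) (f : (Fin 3 → ℝ) → ℂ) (z : Fin 3 → ℂ) : ℂ :=
  ∫ x, f x * Complex.exp (Complex.I * ∑ i, z i * (x i : ℂ)) ∂μ

theorem norm_phase_le (z : Fin 3 → ℂ) (x : Fin 3 → ℝ) :
    ‖Complex.I * ∑ i, z i * (x i : ℂ)‖ ≤ 3 * ‖z‖ * ‖x‖ := by
  rw [norm_mul, Complex.norm_I, one_mul]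
  refine (norm_sum_le _ _).trans ?_
  have h : ∀ i ∈ (Finset.univ : Finset (Fin 3)), ‖z i * (x i : ℂ)‖ ≤ ‖z‖ * ‖x‖ := by
    intro i _
    rw [norm_mul, Complex.norm_real]
    exact mul_le_mul (norm_le_pi_norm z i) (norm_le_pi_norm x i) (norm_nonneg _) (norm_nonneg _)
  refine (Finset.sum_le_sum h).trans ?_
  rw [Finset.sum_const, Finset.card_univ, Fintype.card_fin]
  simp only [nsmul_eq_mul, Nat.cast_ofNat]
  linarith

theorem norm_exp_phase_le (z : Fin 3 → ℂ) (x : Fin 3 → ℝ) :
    ‖Complex.exp (Complex.I * ∑ i, z i * (x i : ℂ))‖ ≤ Real.exp (3 * ‖z‖ * ‖x‖) := by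
  rw [Complex.norm_exp]
  exact Real.exp_le_exp.mpr ((Complex.re_le_norm _).trans (norm_phase_le z x))

theorem continuous_phase : Continuous (fun y : (Fin 3 → ℂ) × (Fin 3 → ℝ) =>
    Complex.exp (Complex.I * ∑ i, y.1 i * (y.2 i : ℂ))) := by
  fun_prop

variable {μ : Measure (Fin 3 → ℝ)} {f : (Fin 3 → ℝ) → ℂ} {R : ℝ}

theorem integrable_FL (hf : Integrable f μ) (hR : ∀ᵐ x ∂μ, ‖x‖ ≤ R) (z : Fin 3 → ℂ) :
    Integrable (fun x => f x * Complex.exp (Complex.I * ∑ i, z i * (x i : ℂ))) μ := by
  have h1 : AEStronglyMeasurable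
      (fun x : Fin 3 → ℝ => Complex.exp (Complex.I * ∑ i, z i * (x i : ℂ))) μ := by
    have : Continuous (fun x : Fin 3 → ℝ => Complex.exp (Complex.I * ∑ i, z i * (x i : ℂ))) := by
      fun_prop
    exact this.aestronglyMeasurable
  refine Integrable.mono' (g := fun x => ‖f x‖ * Real.exp (3 * ‖z‖ * R)) (hf.norm.mul_const _)
    (hf.1.mul h1) ?_
  filter_upwards [hR] with x hx
  rw [norm_mul]
  refine mul_le_mul_of_nonneg_left ((norm_exp_phase_le z x).trans ?_) (norm_nonneg _)
  exact Real.exp_le_exp.mpr (mul_le_mul_of_nonneg_left hx (by positivity))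

theorem FL_bound (hf : Integrable f μ) (hR : ∀ᵐ x ∂μ, ‖x‖ ≤ R) (z : Fin 3 → ℂ) :
    ‖FL μ f z‖ ≤ (∫ x, ‖f x‖ ∂μ) * Real.exp (3 * R * ‖z‖) := by
  unfold FL
  refine (norm_integral_le_integral_norm _).trans ?_
  rw [← integral_mul_const]
  refine integral_mono_ae (integrable_FL hf hR z).norm (hf.norm.mul_const _) ?_
  filter_upwards [hR] with x hx
  rw [norm_mul]
  refine mul_le_mul_of_nonneg_left ((norm_exp_phase_le z x).trans ?_) (norm_nonneg _)
  refine Real.exp_le_exp.mpr ?_
  have := mul_le_mul_of_nonneg_left hx (by positivity : 0 ≤ 3 * ‖z‖)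
  linarith

theorem FL_continuous (hf : Integrable f μ) (hR : ∀ᵐ x ∂μ, ‖x‖ ≤ R) : Continuous (FL μ f) := by
  rw [continuous_iff_continuousAt]
  intro z₀
  unfold FL
  refine continuousAt_of_dominated (bound := fun x => ‖f x‖ * Real.exp (3 * (‖z₀‖ + 1) * R))
    ?_ ?_ (hf.norm.mul_const _) ?_
  · filter_upwards with z
    exact (integrable_FL hf hR z).1
  · have hball : Metric.ball z₀ 1 ∈ 𝓝 z₀ := Metric.ball_mem_nhds _ one_pos
    filter_upwards [hball] with z hz
    filter_upwards [hR] with x hx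
    have hz1 : ‖z‖ ≤ ‖z₀‖ + 1 := by
      have h1 : ‖z - z₀‖ < 1 := by rw [← dist_eq_norm]; exact hz
      have h2 := norm_le_norm_add_norm_sub' z z₀
      linarith
    rw [norm_mul]
    refine mul_le_mul_of_nonneg_left ((norm_exp_phase_le z x).trans ?_) (norm_nonneg _)
    refine Real.exp_le_exp.mpr ?_
    have h3 : 3 * ‖z‖ * ‖x‖ ≤ 3 * ‖z‖ * R := mul_le_mul_of_nonneg_left hx (by positivity)
    have hR0 : 0 ≤ R := (norm_nonneg x).trans hx
    have h4 : 3 * ‖z‖ * R ≤ 3 * (‖z₀‖ + 1) * R := by gcongr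
    exact h3.trans h4
  · filter_upwards with x
    have : Continuous (fun z : Fin 3 → ℂ =>
        f x * Complex.exp (Complex.I * ∑ i, z i * (x i : ℂ))) := by fun_prop
    exact this.continuousAt

theorem FL_entire (hf : Integrable f μ) (hR : ∀ᵐ x ∂μ, ‖x‖ ≤ R) (z w : Fin 3 → ℂ) :
    Differentiable ℂ (fun T : ℂ => FL μ f (z + T • w)) := by
  intro T₀
  set F' : ℂ → (Fin 3 → ℝ) → ℂ := fun T x =>
    f x * (Complex.exp (Complex.I * ∑ i, (z + T • w) i * (x i : ℂ)) *
      (Complex.I * ∑ i, w i * (x i : ℂ))) with hF'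
  have hball : Metric.ball T₀ 1 ∈ 𝓝 T₀ := Metric.ball_mem_nhds _ one_pos
  have hmain := hasDerivAt_integral_of_dominated_loc_of_deriv_le (μ := μ)
    (F := fun T x => f x * Complex.exp (Complex.I * ∑ i, (z + T • w) i * (x i : ℂ)))
    (F' := F') (x₀ := T₀) (s := Metric.ball T₀ 1)
    (bound := fun x => ‖f x‖ * (Real.exp (3 * (‖z‖ + (‖T₀‖ + 1) * ‖w‖) * R) * (3 * ‖w‖ * R)))
    hball ?_ ?_ ?_ ?_ ?_ ?_
  · exact hmain.2.differentiableAt
  · filter_upwards with T
    exact (integrable_FL hf hR _).1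
  · exact integrable_FL hf hR _
  · refine hf.1.mul ?_
    have : Continuous (fun x : Fin 3 → ℝ =>
        Complex.exp (Complex.I * ∑ i, (z + T₀ • w) i * (x i : ℂ)) *
          (Complex.I * ∑ i, w i * (x i : ℂ))) := by fun_prop
    exact this.aestronglyMeasurable
  · filter_upwards [hR] with x hx T hT
    have hR0 : 0 ≤ R := (norm_nonneg x).trans hx
    have hT1 : ‖T‖ ≤ ‖T₀‖ + 1 := by
      have h1 : ‖T - T₀‖ < 1 := by rw [← dist_eq_norm]; exact hT
      have h2 := norm_le_norm_add_norm_sub' T T₀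
      linarith
    have hzT : ‖z + T • w‖ ≤ ‖z‖ + (‖T₀‖ + 1) * ‖w‖ := by
      refine (norm_add_le _ _).trans ?_
      rw [norm_smul]
      gcongr
    rw [hF']
    simp only
    rw [norm_mul, norm_mul]
    refine mul_le_mul_of_nonneg_left ?_ (norm_nonneg _)
    refine mul_le_mul ?_ ?_ (norm_nonneg _) (Real.exp_pos _).le
    · refine (norm_exp_phase_le _ x).trans (Real.exp_le_exp.mpr ?_)
      calc 3 * ‖z + T • w‖ * ‖x‖ ≤ 3 * (‖z‖ + (‖T₀‖ + 1) * ‖w‖) * R := by gcongr
        _ = _ := rfl
    · refine (norm_phase_le w x).trans ?_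
      gcongr
  · exact hf.norm.mul_const _
  · filter_upwards with x T _
    have h1 : HasDerivAt (fun T : ℂ => Complex.I * ∑ i, (z + T • w) i * (x i : ℂ))
        (Complex.I * ∑ i, w i * (x i : ℂ)) T := by
      refine HasDerivAt.const_mul _ ?_
      refine HasDerivAt.fun_sum fun i _ => ?_
      have h2 : HasDerivAt (fun T : ℂ => (z i + T * w i)) (w i) T := by
        have := ((hasDerivAt_id T).mul_const (w i)).const_add (z i)
        simpa using this
      have h3 := h2.mul_const ((x i : ℂ))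
      simpa using! h3
    have h4 := (h1.cexp).const_mul (f x)
    exact h4

theorem FL_nice_aux {D : Set (Fin 3 → ℝ)} (hD : MeasurableSet D)
    (hf : Integrable f (volume.restrict D)) (hR : ∀ x ∈ D, ‖x‖ ≤ R) :
    Nice (FL (volume.restrict D) f) := by
  have hR' : ∀ᵐ x ∂(volume.restrict D), ‖x‖ ≤ R := by
    rw [ae_restrict_iff' hD]
    exact Filter.Eventually.of_forall hR
  refine ⟨FL_continuous hf hR', FL_entire hf hR', ?_, ?_⟩
  · refine ⟨∫ x, ‖f x‖ ∂(volume.restrict D), 3 * max R 0, integral_nonneg fun _ => norm_nonneg _,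
      by positivity, fun z => ?_⟩
    refine (FL_bound hf hR' z).trans ?_
    refine mul_le_mul_of_nonneg_left ?_ (integral_nonneg fun _ => norm_nonneg _)
    refine Real.exp_le_exp.mpr ?_
    gcongr
    exact le_max_left _ _
  · intro w
    set g : (Fin 3 → ℝ) → ℂ := D.indicator (fun x => f x *
      Complex.exp (Complex.I * ∑ i, w i * (x i : ℂ))) with hg
    have hRL := tendsto_integral_exp_smul_cocompact g (volume : Measure (Fin 3 → ℝ))
    let ψ : (Fin 3 → ℝ) →ₗ[ℝ] StrongDual ℝ (Fin 3 → ℝ) :=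
      { toFun := fun x => ∑ i, (-(2 * Real.pi)⁻¹ * x i) •
          (ContinuousLinearMap.proj (R := ℝ) (φ := fun _ : Fin 3 => ℝ) i)
        map_add' := fun a b => by
          simp only [Pi.add_apply, mul_add, add_smul, Finset.sum_add_distrib]
        map_smul' := fun c a => by
          simp only [Pi.smul_apply, smul_eq_mul, RingHom.id_apply, Finset.smul_sum, smul_smul]
          refine Finset.sum_congr rfl fun i _ => ?_
          congr 1; ring }
    have hψ : ∀ x v, ψ x v = -(2 * Real.pi)⁻¹ * ∑ i, x i * v i := by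
      intro x v
      show (∑ i, (-(2 * Real.pi)⁻¹ * x i) •
          (ContinuousLinearMap.proj (R := ℝ) (φ := fun _ : Fin 3 => ℝ) i)) v = _
      rw [sum_apply, Finset.mul_sum]
      refine Finset.sum_congr rfl fun i _ => ?_
      simp [mul_assoc]
    have hinj : Function.Injective ψ := by
      rw [← LinearMap.ker_eq_bot, LinearMap.ker_eq_bot']
      intro x hx
      funext j
      have h1 : ψ x (Pi.single j 1) = 0 := by rw [hx]; rfl
      rw [hψ] at h1
      have h2 : ∑ i, x i * (Pi.single j (1 : ℝ) : Fin 3 → ℝ) i = x j := by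
        rw [Finset.sum_eq_single j]
        · simp
        · intro b _ hb; simp [Pi.single_eq_of_ne hb]
        · intro h; exact absurd (Finset.mem_univ j) h
      rw [h2] at h1
      have h3 : -(2 * Real.pi)⁻¹ ≠ 0 := by
        have := Real.pi_pos
        have : (2 * Real.pi)⁻¹ ≠ 0 := by positivity
        exact neg_ne_zero.mpr this
      exact (mul_eq_zero.mp h1).resolve_left h3
    have htend := tendsto_linear_cocompact ψ hinj
    refine (hRL.comp htend).congr fun x => ?_
    simp only [Function.comp, FL]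
    rw [← integral_indicator hD]
    refine integral_congr_ae (Filter.Eventually.of_forall fun v => ?_)
    simp only [hg]
    by_cases hv : v ∈ D
    · rw [Set.indicator_of_mem hv, Set.indicator_of_mem hv, Circle.smul_def,
        Real.fourierChar_apply, hψ, smul_eq_mul]
      rw [mul_comm, mul_assoc, ← Complex.exp_add]
      congr 2
      simp only [Pi.add_apply, ofR, add_mul, Finset.sum_add_distrib, mul_add]
      congr 1
      have hpi : (Real.pi : ℂ) ≠ 0 := by exact_mod_cast Real.pi_ne_zero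
      push_cast
      field_simp
    · rw [Set.indicator_of_notMem hv, Set.indicator_of_notMem hv, smul_zero]

/-- Injectivity of the Fourier transform on integrable functions. -/
theorem ae_zero_of_fourier_zero {V : Type*} [NormedAddCommGroup V] [InnerProductSpace ℝ V]
    [FiniteDimensional ℝ V] [MeasurableSpace V] [BorelSpace V] {φ : V → ℂ}
    (hφ : Integrable φ) (h : ∀ ξ, FourierTransform.fourier φ ξ = 0) : φ =ᵐ[volume] 0 := by
  have h1 : ∀ᵐ x ∂(volume : Measure V), φ x = 0 := by
    refine ae_eq_zero_of_integral_contDiff_smul_eq_zero hφ.locallyIntegrable ?_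
    intro g hg hgs
    have hgc : HasCompactSupport (fun x => (g x : ℂ)) := by
      exact hgs.comp_left (g := fun r : ℝ => (r : ℂ)) (by simp)
    have hgd : ContDiff ℝ ((⊤ : ℕ∞) : WithTop ℕ∞) (fun x => (g x : ℂ)) :=
      Complex.ofRealCLM.contDiff.comp hg
    let G : SchwartzMap V ℂ := hgc.toSchwartzMap hgd
    have hG : ∀ x, G x = (g x : ℂ) := fun x => rfl
    set H : SchwartzMap V ℂ := FourierTransformInv.fourierInv G with hH
    have hHG : FourierTransform.fourier H = G := FourierTransform.fourier_fourierInv_eq G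
    have h2 := VectorFourier.integral_fourierIntegral_smul_eq_flip (L := innerₗ V)
      (μ := (volume : Measure V)) (ν := (volume : Measure V)) (f := fun x => H x) (g := φ)
      Real.continuous_fourierChar continuous_inner H.integrable hφ
    have h3 : ∀ ξ, VectorFourier.fourierIntegral Real.fourierChar volume (innerₗ V) (fun x => H x) ξ
        = (g ξ : ℂ) := by
      intro ξ
      rw [← hG ξ, ← hHG, SchwartzMap.fourier_coe]
      rfl
    have h4 : ∀ ξ, VectorFourier.fourierIntegral Real.fourierChar volume (innerₗ V).flip φ ξ = 0 := by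
      intro ξ
      rw [← h ξ]
      rw [Real.fourier_eq]
      unfold VectorFourier.fourierIntegral
      simp only [LinearMap.flip_apply, innerₗ_apply_apply, real_inner_comm]
    simp only [h3, h4, smul_zero, integral_zero] at h2
    rw [← h2]
    refine integral_congr_ae (Filter.Eventually.of_forall fun x => ?_)
    simp
  exact h1

end Pool.Agent.H89
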