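import Mathlib
import Pool.Agent.H89.FT

set_option autoImplicit false

namespace Pool.Agent.H89

open Filter Topology MeasureTheory

/-- If the Fourier-Laplace transform vanishes on the real space, the function vanishes. -/
theorem FL_injective {D : Set (Fin 3 → ℝ)} {f : (Fin 3 → ℝ) → ℂ} (hD : MeasurableSet D)
    (hf : Integrable f (volume.restrict D))
    (h : ∀ x : Fin 3 → ℝ, FL (volume.restrict D) f (ofR x) = 0) :
    f =ᵐ[volume.restrict D] 0 := by
  set φ : EuclideanSpace ℝ (Fin 3) → ℂ := fun y => D.indicator f (WithLp.ofLp y) with hφdef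
  have mp : MeasurePreserving (@WithLp.ofLp 2 (Fin 3 → ℝ)) := PiLp.volume_preserving_ofLp (Fin 3)
  have mp' : MeasurePreserving (@WithLp.toLp 2 (Fin 3 → ℝ)) := PiLp.volume_preserving_toLp (Fin 3)
  have hemb : MeasurableEmbedding (@WithLp.ofLp 2 (Fin 3 → ℝ)) :=
    (MeasurableEquiv.toLp 2 (Fin 3 → ℝ)).symm.measurableEmbedding
  have hi : Integrable (D.indicator f) := (integrable_indicator_iff hD).mpr hf
  have hφ : Integrable φ := (mp.integrable_comp_emb hemb).mpr hi
  have hF : ∀ ξ, FourierTransform.fourier φ ξ = 0 := by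
    intro ξ
    rw [Real.fourier_eq]
    have h1 := mp.integral_comp hemb (fun v : Fin 3 → ℝ =>
      Real.fourierChar (-∑ i, v i * (WithLp.ofLp ξ) i) • D.indicator f v)
    have h2 : (fun v : EuclideanSpace ℝ (Fin 3) => Real.fourierChar (-inner ℝ v ξ) • φ v) =
        fun v => Real.fourierChar (-∑ i, (WithLp.ofLp v) i * (WithLp.ofLp ξ) i) •
          D.indicator f (WithLp.ofLp v) := by
      funext v
      simp only [hφdef]
      congr 3
      rw [PiLp.inner_apply]
      refine Finset.sum_congr rfl fun i _ => ?_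
      simp [mul_comm]
    rw [h2, h1, ← h (fun i => -(2 * Real.pi) * (WithLp.ofLp ξ) i)]
    unfold FL
    rw [← integral_indicator hD]
    refine integral_congr_ae (Filter.Eventually.of_forall fun v => ?_)
    simp only
    by_cases hv : v ∈ D
    · rw [Set.indicator_of_mem hv, Set.indicator_of_mem hv, Circle.smul_def,
        Real.fourierChar_apply, smul_eq_mul, mul_comm]
      congr 2
      simp only [ofR]
      push_cast
      have h3 : (∑ i, -(2 * (Real.pi : ℂ)) * (ξ.ofLp i : ℂ) * (v i : ℂ)) =
          -(2 * (Real.pi : ℂ)) * ∑ i, (v i : ℂ) * (ξ.ofLp i : ℂ) := by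
        rw [Finset.mul_sum]
        refine Finset.sum_congr rfl fun i _ => ?_
        ring
      rw [h3]
      ring
    · rw [Set.indicator_of_notMem hv, Set.indicator_of_notMem hv, smul_zero]
  have h0 := ae_zero_of_fourier_zero hφ hF
  have h1 : ∀ᵐ v : Fin 3 → ℝ, φ (WithLp.toLp 2 v) = 0 :=
    mp'.quasiMeasurePreserving.ae h0
  have h2 : ∀ᵐ v : Fin 3 → ℝ, v ∈ D → f v = 0 := by
    filter_upwards [h1] with v hv hvD
    simp only [hφdef] at hv
    rwa [Set.indicator_of_mem hvD] at hv
  exact (ae_restrict_iff' hD).mpr h2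

end Pool.Agent.H89
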