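import Mathlib
import Pool.Agent.H89.PolyBasic
import Pool.Agent.H89.Hurwitz
import Pool.Agent.H89.Inv

set_option autoImplicit false

namespace Pool.Agent.H89

open Filter Topology MeasureTheory MvPolynomial

/-- Complex hypersurfaces have positive four-dimensional Hausdorff measure near each of their
points. -/
theorem hausdorff_pos {p : MvPolynomial (Fin 3) ℂ} (hp : p ≠ 0)
    {z₀ : EuclideanSpace ℂ (Fin 3)} (h0 : eval (WithLp.ofLp z₀) p = 0) {r : ℝ} (hr : 0 < r) :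
    0 < Measure.hausdorffMeasure (4 : ℝ)
      ({z : EuclideanSpace ℂ (Fin 3) | eval (WithLp.ofLp z) p = 0} ∩ Metric.ball z₀ r) := by
  obtain ⟨z₁, hz₁⟩ : ∃ z : Fin 3 → ℂ, eval z p ≠ 0 := by
    by_contra hcon
    push Not at hcon
    exact hp (MvPolynomial.funext fun z => by rw [hcon z, map_zero])
  set w : EuclideanSpace ℂ (Fin 3) := WithLp.toLp 2 z₁ - z₀ with hw
  have hw0 : w ≠ 0 := by
    intro h
    have : WithLp.toLp 2 z₁ = z₀ := by rw [← sub_eq_zero]; exact h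
    rw [← this] at h0
    exact hz₁ h0
  -- persistence of zeros
  have hcont : Continuous (fun x : EuclideanSpace ℂ (Fin 3) × ℂ =>
      eval (WithLp.ofLp (x.1 + x.2 • w)) p) := by
    refine (continuous_eval' p).comp ?_
    fun_prop
  have hd : ∀ z : EuclideanSpace ℂ (Fin 3), Differentiable ℂ
      (fun y : ℂ => eval (WithLp.ofLp (z + y • w)) p) := by
    intro z
    exact differentiable_eval_line p (WithLp.ofLp z) (WithLp.ofLp w)
  have hε : 0 < r / 2 / (‖w‖ + 1) := by positivity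
  have hh := hurwitz (Φ := fun (z : EuclideanSpace ℂ (Fin 3)) (y : ℂ) =>
    eval (WithLp.ofLp (z + y • w)) p) hcont hd (l₀ := z₀) (y₀ := 0)
    (by rw [zero_smul, add_zero]; exact h0)
    ⟨1, by rw [one_smul, hw, add_sub_cancel]; exact hz₁⟩ hε
  -- the projection
  let Q := (EuclideanSpace ℂ (Fin 3)) ⧸ (Submodule.span ℂ {w})
  have hfin : Module.finrank ℂ ((EuclideanSpace ℂ (Fin 3)) ⧸ (Submodule.span ℂ {w})) =
      Module.finrank ℂ (Fin 2 → ℂ) := by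
    have h1 := Submodule.finrank_quotient_add_finrank (Submodule.span ℂ {w})
    rw [finrank_span_singleton hw0, finrank_euclideanSpace_fin] at h1
    rw [Module.finrank_fin_fun]
    omega
  let e := LinearEquiv.ofFinrankEq _ _ hfin
  let L₀ : (EuclideanSpace ℂ (Fin 3)) →ₗ[ℂ] (Fin 2 → ℂ) :=
    (e : _ →ₗ[ℂ] (Fin 2 → ℂ)).comp (Submodule.span ℂ {w}).mkQ
  let L : (EuclideanSpace ℂ (Fin 3)) →L[ℂ] (Fin 2 → ℂ) := LinearMap.toContinuousLinearMap L₀
  have hLsurj : Function.Surjective L := by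
    have h1 : Function.Surjective L₀ := e.surjective.comp (Submodule.mkQ_surjective _)
    exact h1
  have hLw : L w = 0 := by
    have h1 : (Submodule.span ℂ {w}).mkQ w = 0 := by
      rw [Submodule.mkQ_apply, Submodule.Quotient.mk_eq_zero]
      exact Submodule.mem_span_singleton_self w
    show e ((Submodule.span ℂ {w}).mkQ w) = 0
    rw [h1, map_zero]
  set V : Set (EuclideanSpace ℂ (Fin 3)) := {z | eval (WithLp.ofLp z) p = 0} with hV
  -- the image contains an open neighbourhood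
  have hnhds : L '' (V ∩ Metric.ball z₀ r) ∈ 𝓝 (L z₀) := by
    have hU : ∀ᶠ z in 𝓝 z₀, ∃ z' ∈ V ∩ Metric.ball z₀ r, L z' = L z := by
      have hb : Metric.ball z₀ (r / 2) ∈ 𝓝 z₀ := Metric.ball_mem_nhds _ (half_pos hr)
      filter_upwards [hh, hb] with z hz hzb
      obtain ⟨y, hy, hy0⟩ := hz
      rw [sub_zero] at hy
      refine ⟨z + y • w, ⟨hy0, ?_⟩, ?_⟩
      · rw [Metric.mem_ball, dist_eq_norm]
        have h1 : ‖y • w‖ < r / 2 := by
          rw [norm_smul]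
          calc ‖y‖ * ‖w‖ ≤ ‖y‖ * (‖w‖ + 1) := by gcongr; linarith
            _ < r / 2 / (‖w‖ + 1) * (‖w‖ + 1) := by gcongr
            _ = r / 2 := by field_simp
        have h2 : ‖z - z₀‖ < r / 2 := by rw [← dist_eq_norm]; exact hzb
        calc ‖z + y • w - z₀‖ = ‖(z - z₀) + y • w‖ := by congr 1; abel
          _ ≤ ‖z - z₀‖ + ‖y • w‖ := norm_add_le _ _
          _ < r := by linarith
      · rw [map_add, map_smul, hLw, smul_zero, add_zero]
    have hopen := L.isOpenMap hLsurj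
    have h2 : L '' {z | ∃ z' ∈ V ∩ Metric.ball z₀ r, L z' = L z} ∈ 𝓝 (L z₀) :=
      hopen.image_mem_nhds hU
    refine mem_of_superset h2 ?_
    rintro _ ⟨z, ⟨z', hz', hzz'⟩, rfl⟩
    exact ⟨z', hz', hzz'⟩
  have hdim : Module.finrank ℝ (Fin 2 → ℂ) = 4 := by
    rw [finrank_real_of_complex, Module.finrank_fin_fun]
  have hHaar : (Measure.hausdorffMeasure (4 : ℝ) : Measure (Fin 2 → ℂ)).IsAddHaarMeasure := by
    have := isAddHaarMeasure_hausdorffMeasure (E := Fin 2 → ℂ)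
    rw [hdim] at this
    exact_mod_cast this
  have hpos : 0 < Measure.hausdorffMeasure (4 : ℝ) (L '' (V ∩ Metric.ball z₀ r)) :=
    Measure.measure_pos_of_mem_nhds _ hnhds
  have hlip := L.lipschitz.hausdorffMeasure_image_le (d := 4) (by norm_num)
    (V ∩ Metric.ball z₀ r)
  by_contra hcon
  have hz : Measure.hausdorffMeasure (4 : ℝ) (V ∩ Metric.ball z₀ r) = 0 := by
    rwa [pos_iff_ne_zero, not_not] at hcon
  rw [hz, mul_zero] at hlip
  exact absurd hlip (not_le.mpr hpos)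

/-- The linear form with coefficient vector `g`. -/
noncomputable def linForm (g : Fin 3 → ℂ) : (Fin 3 → ℂ) →L[ℂ] ℂ :=
  ∑ i, g i • (ContinuousLinearMap.proj (R := ℂ) (φ := fun _ : Fin 3 => ℂ) i)

theorem linForm_apply (g v : Fin 3 → ℂ) : linForm g v = ∑ i, g i * v i := by
  unfold linForm
  rw [sum_apply]; rfl

/-- Derivative of the evaluation of a polynomial. -/
theorem hasStrictFDerivAt_eval (p : MvPolynomial (Fin 3) ℂ) (z : Fin 3 → ℂ) :
    HasStrictFDerivAt (fun z : Fin 3 → ℂ => eval z p)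
      (linForm (fun i => eval z (pderiv i p))) z := by
  refine MvPolynomial.induction_on (motive := fun p => HasStrictFDerivAt
    (fun z : Fin 3 → ℂ => eval z p) (linForm (fun i => eval z (pderiv i p))) z) p ?_ ?_ ?_
  · intro c
    have h1 : (fun z : Fin 3 → ℂ => eval z (C c : MvPolynomial (Fin 3) ℂ)) = fun _ => c := by
      funext z; rw [eval_C]
    rw [h1]
    refine (hasStrictFDerivAt_const c z).congr_fderiv ?_
    ext v
    rw [linForm_apply]
    simp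
  · intro p q hp hq
    have h1 : (fun z : Fin 3 → ℂ => eval z (p + q)) = fun z => eval z p + eval z q := by
      funext z; rw [map_add]
    rw [h1]
    refine (hp.add hq).congr_fderiv ?_
    refine ContinuousLinearMap.ext fun v => ?_
    rw [add_apply, linForm_apply, linForm_apply, linForm_apply, ← Finset.sum_add_distrib]
    refine Finset.sum_congr rfl fun i _ => ?_
    rw [map_add, map_add]; ring
  · intro p j hp
    have hj : HasStrictFDerivAt (fun z : Fin 3 → ℂ => z j)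
        (ContinuousLinearMap.proj (R := ℂ) (φ := fun _ : Fin 3 => ℂ) j) z :=
      (ContinuousLinearMap.proj (R := ℂ) (φ := fun _ : Fin 3 => ℂ) j).hasStrictFDerivAt
    have h1 := hp.mul hj
    have h2 : (fun z : Fin 3 → ℂ => eval z (p * X j)) = fun z => eval z p * z j := by
      funext z; rw [map_mul, eval_X]
    rw [h2]
    refine h1.congr_fderiv (ContinuousLinearMap.ext fun v => ?_)
    rw [add_apply, smul_apply, smul_apply, linForm_apply, linForm_apply, smul_eq_mul, smul_eq_mul,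
      ContinuousLinearMap.proj_apply]
    have h3 : ∀ i, eval z (pderiv i (p * X j)) * v i =
        eval z p * ((Pi.single i (1 : ℂ) : Fin 3 → ℂ) j * v i) +
          z j * (eval z (pderiv i p) * v i) := by
      intro i
      rw [Derivation.leibniz, pderiv_X, map_add, smul_eq_mul, smul_eq_mul, map_mul, map_mul, eval_X]
      have h4 : eval z ((Pi.single i (1 : MvPolynomial (Fin 3) ℂ) :
          Fin 3 → MvPolynomial (Fin 3) ℂ) j) = (Pi.single i (1 : ℂ) : Fin 3 → ℂ) j := by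
        by_cases hij : j = i
        · subst hij; simp
        · simp [Pi.single_eq_of_ne hij]
      rw [h4]; ring
    simp only [h3]
    rw [Finset.sum_add_distrib, ← Finset.mul_sum, ← Finset.mul_sum]
    congr 1
    congr 1
    rw [Finset.sum_eq_single j]
    · simp
    · intro b _ hb; simp [Pi.single_eq_of_ne' hb]
    · intro h; exact absurd (Finset.mem_univ j) h

/-- Transversality: the sum set contains a neighbourhood. -/
theorem sum_nhds {V₁ V₂ : Set (EuclideanSpace ℂ (Fin 3))}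
    {p₁ p₂ : EuclideanSpace ℂ (Fin 3)} (hp₁ : p₁ ∈ V₁) (hp₂ : p₂ ∈ V₂)
    {Q₁ Q₂ : MvPolynomial (Fin 3) ℂ} {U₁ U₂ : Set (EuclideanSpace ℂ (Fin 3))}
    (hU₁ : IsOpen U₁) (hU₂ : IsOpen U₂) (hpU₁ : p₁ ∈ U₁) (hpU₂ : p₂ ∈ U₂)
    (h₁ : V₁ ∩ U₁ = {z | MvPolynomial.eval (WithLp.ofLp z) Q₁ = 0} ∩ U₁)
    (h₂ : V₂ ∩ U₂ = {z | MvPolynomial.eval (WithLp.ofLp z) Q₂ = 0} ∩ U₂)
    (hlin : LinearIndependent ℂ
        ![fun i : Fin 3 => MvPolynomial.eval (WithLp.ofLp p₁) (MvPolynomial.pderiv i Q₁),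
          fun i : Fin 3 => MvPolynomial.eval (WithLp.ofLp p₂) (MvPolynomial.pderiv i Q₂)]) :
    ∀ᶠ ζ in 𝓝 (WithLp.ofLp p₁ + WithLp.ofLp p₂), ∃ a b : EuclideanSpace ℂ (Fin 3),
      a ∈ V₁ ∧ b ∈ V₂ ∧ WithLp.ofLp a + WithLp.ofLp b = ζ := by
  set g₁ : Fin 3 → ℂ := fun i => eval (WithLp.ofLp p₁) (pderiv i Q₁) with hg₁
  set g₂ : Fin 3 → ℂ := fun i => eval (WithLp.ofLp p₂) (pderiv i Q₂) with hg₂
  let G : (Fin 3 → ℂ) × (Fin 3 → ℂ) → (ℂ × ℂ) × (Fin 3 → ℂ) := fun x =>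
    ((eval x.1 Q₁, eval x.2 Q₂), x.1 + x.2)
  let D₁ : (Fin 3 → ℂ) →L[ℂ] ℂ := linForm g₁
  let D₂ : (Fin 3 → ℂ) →L[ℂ] ℂ := linForm g₂
  have hD₁ : ∀ v, D₁ v = ∑ i, g₁ i * v i := linForm_apply g₁
  have hD₂ : ∀ v, D₂ v = ∑ i, g₂ i * v i := linForm_apply g₂
  let F1 := ContinuousLinearMap.fst ℂ (Fin 3 → ℂ) (Fin 3 → ℂ)
  let F2 := ContinuousLinearMap.snd ℂ (Fin 3 → ℂ) (Fin 3 → ℂ)
  let G' : ((Fin 3 → ℂ) × (Fin 3 → ℂ)) →L[ℂ] (ℂ × ℂ) × (Fin 3 → ℂ) :=
    ((D₁.comp F1).prod (D₂.comp F2)).prod (F1 + F2)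
  have hG : HasStrictFDerivAt G G' (WithLp.ofLp p₁, WithLp.ofLp p₂) := by
    have a1 : HasStrictFDerivAt (fun x : (Fin 3 → ℂ) × (Fin 3 → ℂ) => eval x.1 Q₁)
        (D₁.comp F1) (WithLp.ofLp p₁, WithLp.ofLp p₂) :=
      (hasStrictFDerivAt_eval Q₁ (WithLp.ofLp p₁)).comp (WithLp.ofLp p₁, WithLp.ofLp p₂)
        F1.hasStrictFDerivAt
    have a2 : HasStrictFDerivAt (fun x : (Fin 3 → ℂ) × (Fin 3 → ℂ) => eval x.2 Q₂)
        (D₂.comp F2) (WithLp.ofLp p₁, WithLp.ofLp p₂) :=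
      (hasStrictFDerivAt_eval Q₂ (WithLp.ofLp p₂)).comp (WithLp.ofLp p₁, WithLp.ofLp p₂)
        F2.hasStrictFDerivAt
    have a3 : HasStrictFDerivAt (fun x : (Fin 3 → ℂ) × (Fin 3 → ℂ) => x.1 + x.2)
        (F1 + F2) (WithLp.ofLp p₁, WithLp.ofLp p₂) := (F1 + F2).hasStrictFDerivAt
    exact (a1.prodMk a2).prodMk a3
  -- surjectivity of the pair of gradients
  have hpair : ∀ a b : ℂ, ∃ v : Fin 3 → ℂ, D₁ v = a ∧ D₂ v = b := by
    let P : (Fin 3 → ℂ) →ₗ[ℂ] ℂ × ℂ := (D₁ : (Fin 3 → ℂ) →ₗ[ℂ] ℂ).prod (D₂ : (Fin 3 → ℂ) →ₗ[ℂ] ℂ)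
    have htop : LinearMap.range P = ⊤ := by
      by_contra hne
      obtain ⟨ℓ, hℓ0, hℓ⟩ := Submodule.exists_le_ker_of_lt_top _ (lt_top_iff_ne_top.mpr hne)
      have hcomb : ∀ v, ℓ (1, 0) * D₁ v + ℓ (0, 1) * D₂ v = 0 := by
        intro v
        have h1 : P v ∈ LinearMap.ker ℓ := hℓ (LinearMap.mem_range_self P v)
        rw [LinearMap.mem_ker] at h1
        have h2 : P v = D₁ v • ((1, 0) : ℂ × ℂ) + D₂ v • ((0, 1) : ℂ × ℂ) := by
          simp [P]
        rw [h2, map_add, map_smul, map_smul, smul_eq_mul, smul_eq_mul] at h1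
        linear_combination h1
      have hvec : ℓ (1, 0) • g₁ + ℓ (0, 1) • g₂ = 0 := by
        funext j
        have h1 := hcomb (Pi.single j 1)
        rw [hD₁, hD₂] at h1
        have h2 : ∀ g : Fin 3 → ℂ, ∑ i, g i * (Pi.single j (1 : ℂ) : Fin 3 → ℂ) i = g j := by
          intro g
          rw [Finset.sum_eq_single j]
          · simp
          · intro b _ hb; simp [Pi.single_eq_of_ne hb]
          · intro h; exact absurd (Finset.mem_univ j) h
        rw [h2, h2] at h1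
        exact h1
      rw [LinearIndependent.pair_iff] at hlin
      have h3 := hlin _ _ hvec
      apply hℓ0
      apply LinearMap.ext
      rintro ⟨x, y⟩
      have h4 : ((x, y) : ℂ × ℂ) = x • ((1, 0) : ℂ × ℂ) + y • ((0, 1) : ℂ × ℂ) := by simp
      rw [h4, map_add, map_smul, map_smul, h3.1, h3.2]
      simp
    intro a b
    have : (a, b) ∈ LinearMap.range P := by rw [htop]; exact Submodule.mem_top
    obtain ⟨v, hv⟩ := this
    have hv' : (D₁ v, D₂ v) = (a, b) := hv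
    exact ⟨v, (Prod.mk.inj hv').1, (Prod.mk.inj hv').2⟩
  have hsurj : LinearMap.range (G' : ((Fin 3 → ℂ) × (Fin 3 → ℂ)) →ₗ[ℂ] (ℂ × ℂ) × (Fin 3 → ℂ)) = ⊤ := by
    rw [LinearMap.range_eq_top]
    rintro ⟨⟨a, b⟩, c⟩
    obtain ⟨v, hv₁, hv₂⟩ := hpair a (D₂ c - b)
    refine ⟨(v, c - v), ?_⟩
    show ((D₁ v, D₂ (c - v)), v + (c - v)) = ((a, b), c)
    rw [map_sub, hv₁, hv₂, sub_sub_cancel, add_sub_cancel]
  have hmap := hG.map_nhds_eq_of_surj hsurj
  have hQ₁ : eval (WithLp.ofLp p₁) Q₁ = 0 := by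
    have : p₁ ∈ V₁ ∩ U₁ := ⟨hp₁, hpU₁⟩
    rw [h₁] at this; exact this.1
  have hQ₂ : eval (WithLp.ofLp p₂) Q₂ = 0 := by
    have : p₂ ∈ V₂ ∩ U₂ := ⟨hp₂, hpU₂⟩
    rw [h₂] at this; exact this.1
  have hGp : G (WithLp.ofLp p₁, WithLp.ofLp p₂) =
      ((0, 0), WithLp.ofLp p₁ + WithLp.ofLp p₂) := by
    show ((eval (WithLp.ofLp p₁) Q₁, eval (WithLp.ofLp p₂) Q₂), _) = _
    rw [hQ₁, hQ₂]
  -- neighbourhood in the source
  have hN : {x : (Fin 3 → ℂ) × (Fin 3 → ℂ) | WithLp.toLp 2 x.1 ∈ U₁ ∧ WithLp.toLp 2 x.2 ∈ U₂} ∈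
      𝓝 (WithLp.ofLp p₁, WithLp.ofLp p₂) := by
    have c1 : Continuous (fun x : (Fin 3 → ℂ) × (Fin 3 → ℂ) =>
        (WithLp.toLp 2 x.1 : EuclideanSpace ℂ (Fin 3))) := by fun_prop
    have c2 : Continuous (fun x : (Fin 3 → ℂ) × (Fin 3 → ℂ) =>
        (WithLp.toLp 2 x.2 : EuclideanSpace ℂ (Fin 3))) := by fun_prop
    have o1 := hU₁.preimage c1
    have o2 := hU₂.preimage c2
    exact (o1.inter o2).mem_nhds ⟨hpU₁, hpU₂⟩
  have himg := image_mem_map (m := G) hN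
  rw [hmap, hGp] at himg
  have hpath : Tendsto (fun ζ : Fin 3 → ℂ => (((0 : ℂ), (0 : ℂ)), ζ))
      (𝓝 (WithLp.ofLp p₁ + WithLp.ofLp p₂))
      (𝓝 (((0 : ℂ), (0 : ℂ)), WithLp.ofLp p₁ + WithLp.ofLp p₂)) := by
    have hc : Continuous (fun ζ : Fin 3 → ℂ => (((0 : ℂ), (0 : ℂ)), ζ)) := by fun_prop
    exact hc.tendsto _
  filter_upwards [hpath himg] with ζ hζ
  obtain ⟨⟨x, y⟩, ⟨hx, hy⟩, hxy⟩ := hζ
  have hxy' : ((eval x Q₁, eval y Q₂), x + y) = (((0 : ℂ), (0 : ℂ)), ζ) := hxy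
  have e1 := (Prod.mk.inj hxy').1
  have e2 := (Prod.mk.inj hxy').2
  have e3 := (Prod.mk.inj e1).1
  have e4 := (Prod.mk.inj e1).2
  refine ⟨WithLp.toLp 2 x, WithLp.toLp 2 y, ?_, ?_, e2⟩
  · have : WithLp.toLp 2 x ∈ V₁ ∩ U₁ := by rw [h₁]; exact ⟨e3, hx⟩
    exact this.1
  · have : WithLp.toLp 2 y ∈ V₂ ∩ U₂ := by rw [h₂]; exact ⟨e4, hy⟩
    exact this.1

end Pool.Agent.H89
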